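import Mathlib

/-! Steklov sums of the equilateral triangle (MP_1de434_an): definitions and exact
statements of the pieces.  See `notes.md` in this folder for the paper proofs. -/

open MeasureTheory Real Set

namespace Pool.Agent.R204.ST

noncomputable section

/-- The closed equilateral triangle of inradius `1` (side `2√3`, perimeter `6√3`). -/
def T : Set (ℝ × ℝ) :=
  {p | p.1 ≤ 1 ∧ -p.1 + √3 * p.2 ≤ 2 ∧ -p.1 - √3 * p.2 ≤ 2}

/-- Arc-length parametrisations of the three sides, `s ∈ [-√3, √3]`.  As complex numbers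
`side m s = ω^m (1 + i s)` with `ω = exp(2πi/3)`.  The outward unit normal of the side `m`
is `ω^m = side m 0`. -/
def side : Fin 3 → ℝ → ℝ × ℝ
  | 0, s => (1, s)
  | 1, s => (-1 / 2 - √3 / 2 * s, √3 / 2 - s / 2)
  | 2, s => (-1 / 2 + √3 / 2 * s, -(√3 / 2) - s / 2)

/-- The Dirichlet form on `T`. -/
def E2 (u v : ℝ × ℝ → ℝ) : ℝ :=
  ∫ p in T, fderiv ℝ u p (1, 0) * fderiv ℝ v p (1, 0)
    + fderiv ℝ u p (0, 1) * fderiv ℝ v p (0, 1)

/-- The boundary form. -/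
def B2 (u v : ℝ × ℝ → ℝ) : ℝ :=
  ∫ s in (-√3)..√3, ∑ m : Fin 3, u (side m s) * v (side m s)

/-- The Dirichlet energy of `u` on `T`. -/
def energy (u : ℝ × ℝ → ℝ) : ℝ :=
  ∫ p in T, (fderiv ℝ u p (1, 0)) ^ 2 + (fderiv ℝ u p (0, 1)) ^ 2

/-- The integral of `u^2` over the boundary of `T` (arc length). -/
def bd (u : ℝ × ℝ → ℝ) : ℝ :=
  ∫ s in (-√3)..√3, ∑ m : Fin 3, (u (side m s)) ^ 2

/-- The Steklov eigenvalue number `k` of `T` (numbering from `0`), by the min-max formula: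
the infimum of the `M` for which there is a `(k+1)`-dimensional space of smooth functions,
on which the trace is injective, with `energy u ≤ M * bd u`. -/
def steklov (k : ℕ) : ℝ :=
  sInf {M : ℝ | ∃ V : Submodule ℝ (ℝ × ℝ → ℝ), (∀ u ∈ V, ContDiff ℝ ⊤ u) ∧
    Module.finrank ℝ V = k + 1 ∧ (∀ u ∈ V, bd u = 0 → u = 0) ∧
    ∀ u ∈ V, energy u ≤ M * bd u}

/-- Smooth harmonic functions with `∂_ν u = σ u` on the three sides (lines). -/
def IsStek (σ : ℝ) (u : ℝ × ℝ → ℝ) : Prop :=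
  ContDiff ℝ ⊤ u ∧
  (∀ p, fderiv ℝ (fun q => fderiv ℝ u q (1, 0)) p (1, 0)
      + fderiv ℝ (fun q => fderiv ℝ u q (0, 1)) p (0, 1) = 0) ∧
  ∀ (m : Fin 3) (s : ℝ), fderiv ℝ u (side m s) (side m 0) = σ * u (side m s)

/-- One exponential/trigonometric wave. -/
def wave (c f C S φ : ℝ) (p : ℝ × ℝ) : ℝ :=
  (exp (c * (C * p.1 - S * p.2)) - f * exp (-(c * (C * p.1 - S * p.2))))
    * cos (φ + c * (S * p.1 + C * p.2))

/-- The coefficient `φ₀`. -/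
def f0 (c t : ℝ) : ℝ := (1 - t) / (1 + t) * exp (2 * c)

/-- The explicit eigenfunctions (three waves, phase `θ`). -/
def F (c t q θ : ℝ) (p : ℝ × ℝ) : ℝ :=
  wave c (f0 c t) 1 0 (-θ) p + wave c (f0 c t) (-1 / 2) (√3 / 2) (q - θ) p
    + wave c (f0 c t) (-1 / 2) (-(√3 / 2)) (2 * q - θ) p

/-- The parameter equations. -/
def Par (q c t : ℝ) : Prop :=
  0 < c ∧ 0 < t ∧
  (1 + t + t ^ 2) * (1 + t) * cos (√3 * c - q) = (1 - t) * exp (3 * c) * (1 - t ^ 2) ∧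
  (1 + t + t ^ 2) * (1 + t) * sin (√3 * c - q) = (1 - t) * exp (3 * c) * (√3 * t)

/-! ### The pieces -/

/-- P1a. Divergence theorem on `T`. -/
def DivStmt : Prop :=
  ∀ A B : ℝ × ℝ → ℝ, ContDiff ℝ 1 A → ContDiff ℝ 1 B →
    ∫ p in T, (fderiv ℝ A p (1, 0) + fderiv ℝ B p (0, 1)) =
      ∫ s in (-√3)..√3, ∑ m : Fin 3,
        (A (side m s) * (side m 0).1 + B (side m s) * (side m 0).2)

/-- P1b. Green's formula (from P1a). -/
def GreenStmt : Prop :=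
  DivStmt → ∀ (σ : ℝ) (u v : ℝ × ℝ → ℝ), IsStek σ u → ContDiff ℝ ⊤ v →
    E2 u v = σ * B2 u v

/-- P2. Min-max. -/
def MinMaxStmt : Prop :=
  ∀ (k : ℕ) (M : ℝ) (e : Fin (k + 1) → ℝ × ℝ → ℝ) (s : Fin (k + 1) → ℝ),
    (∀ i, ContDiff ℝ ⊤ (e i)) → (∀ i j, E2 (e i) (e j) = s i * B2 (e i) (e j)) →
    (∀ i j, i ≠ j → B2 (e i) (e j) = 0) → (∀ i, 0 < B2 (e i) (e i)) → (∀ i, s i ≤ M) →
    steklov k ≤ M

/-- P3. The explicit functions are Steklov eigenfunctions. -/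
def PhiStmt : Prop :=
  ∀ (j : ℕ) (c t θ : ℝ), Par (2 * π * j / 3) c t →
    IsStek (c / t) (F c t (2 * π * j / 3) θ)

/-- P4. They do not vanish on the side `0`. -/
def PosStmt : Prop :=
  ∀ (j : ℕ) (c t θ : ℝ), 0 < c → 0 < t →
    0 < B2 (F c t (2 * π * j / 3) θ) (F c t (2 * π * j / 3) θ)

/-- P5. The family `t < 1`. -/
def Ex1Stmt : Prop :=
  ∀ j : ℕ, 1 ≤ j → ∃ c t : ℝ, Par (2 * π * j / 3) c t ∧
    2 * π * j / 3 + π / 2 - 3 / 10 ≤ √3 * c / t ∧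
    √3 * c / t ≤ 2 * π * j / 3 + π / 2 + 1 / 5 * (1 / 2) ^ j

/-- P6. The family `t > 1`. -/
def Ex2Stmt : Prop :=
  (∃ c t : ℝ, Par (2 * π * (1 : ℕ) / 3) c t ∧ √3 * c / t ≤ 7 / 10) ∧
  ∀ j : ℕ, 2 ≤ j → ∃ c t : ℝ, Par (2 * π * j / 3) c t ∧
    2 * π * j / 3 - π / 2 - 3 / 10 ≤ √3 * c / t ∧
    √3 * c / t ≤ 2 * π * j / 3 - π / 2

end

end Pool.Agent.R204.ST
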