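import Mathlib
import Pool.Agent.R204.ST.Stm

/-! The numerical part of the assembly. -/

open Real Finset

namespace Pool.Agent.R204.ST

noncomputable section

/-- error terms of the pairs -/
def eps (m : ℕ) : ℝ := if Even m then 0 else 1 / 5 * (1 / 2) ^ ((m - 1) / 2)

/-- upper bounds for `√3 σ_k` -/
def bseq (k : ℕ) : ℝ :=
  if k ≤ 2 then 7 / 10 else if k = 3 then √3 else π * (2 * (k / 2 : ℕ) + 1) / 6 + eps (k / 2)

/-- accumulated error -/
def acc (M : ℕ) : ℝ := 2 / 5 * (1 - (1 / 2) ^ ((M - 1) / 2))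

theorem eps_nonneg (m : ℕ) : 0 ≤ eps m := by
  unfold eps; split_ifs <;> positivity

theorem acc_step (M : ℕ) (hM : 1 ≤ M) : acc M + 2 * eps (M + 1) ≤ acc (M + 1) := by
  unfold acc eps
  rcases Nat.even_or_odd' M with ⟨r, rfl | rfl⟩
  · have h1 : ¬ Even (2 * r + 1) := by
      rw [Nat.not_even_iff_odd]; exact ⟨r, rfl⟩
    have h2 : (2 * r + 1 - 1) / 2 = r := by omega
    obtain ⟨r, rfl⟩ : ∃ r', r = r' + 1 := ⟨r - 1, by omega⟩
    have h3 : (2 * (r + 1) - 1) / 2 = r := by omega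
    rw [if_neg h1, h2, h3, pow_succ]
    linarith
  · have h1 : Even (2 * r + 1 + 1) := ⟨r + 1, by ring⟩
    have h2 : (2 * r + 1 + 1 - 1) / 2 = r := by omega
    have h3 : (2 * r + 1 - 1) / 2 = r := by omega
    rw [if_pos h1, h2, h3]
    linarith

theorem acc_le (M : ℕ) : acc M ≤ 2 / 5 := by
  unfold acc
  have : (0 : ℝ) ≤ (1 / 2) ^ ((M - 1) / 2) := by positivity
  linarith

theorem eps_le_acc (M : ℕ) (hM : 1 ≤ M) : acc M + eps (M + 1) ≤ 2 / 5 := by
  have h1 := acc_step M hM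
  have h2 := acc_le (M + 1)
  have h3 := eps_nonneg (M + 1)
  linarith

theorem bseq_even (m : ℕ) (hm : 2 ≤ m) : bseq (2 * m) = π * (2 * m + 1) / 6 + eps m := by
  unfold bseq
  rw [if_neg (by omega), if_neg (by omega)]
  have : 2 * m / 2 = m := by omega
  rw [this]

theorem bseq_odd (m : ℕ) (hm : 2 ≤ m) : bseq (2 * m + 1) = π * (2 * m + 1) / 6 + eps m := by
  unfold bseq
  rw [if_neg (by omega), if_neg (by omega)]
  have : (2 * m + 1) / 2 = m := by omega
  rw [this]

theorem sqrt3_le : √3 ≤ 1.7321 := by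
  rw [Real.sqrt_le_left (by norm_num)]; norm_num

/-- the sum bound, odd case -/
theorem sum_odd (M : ℕ) (hM : 1 ≤ M) :
    ∑ k ∈ Icc 1 (2 * M + 1), bseq k ≤
      π / 3 * (((M : ℝ) + 1) ^ 2 - 4) + 3.1321 + acc M := by
  induction M, hM using Nat.le_induction with
  | base =>
    have h : Icc 1 (2 * 1 + 1) = {1, 2, 3} := by decide
    rw [h]
    have h1 : ∑ k ∈ ({1, 2, 3} : Finset ℕ), bseq k = 7 / 10 + (7 / 10 + √3) := by
      rw [sum_insert (by decide), sum_insert (by decide), sum_singleton]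
      simp [bseq]
    rw [h1]
    have h2 := sqrt3_le
    have h3 : acc 1 = 0 := by simp [acc]
    rw [h3]
    push_cast
    norm_num
    linarith
  | succ M hM ih =>
    have e : 2 * (M + 1) + 1 = (2 * M + 1) + 1 + 1 := by ring
    rw [e, sum_Icc_succ_top (by omega), sum_Icc_succ_top (by omega)]
    have e1 : 2 * M + 1 + 1 = 2 * (M + 1) := by ring
    have e2 : 2 * M + 1 + 1 + 1 = 2 * (M + 1) + 1 := by ring
    rw [e1, bseq_even (M + 1) (by omega), bseq_odd (M + 1) (by omega)]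
    have h1 := acc_step M hM
    push_cast at ih ⊢
    nlinarith [ih, h1]

/-- sum of the ceilings -/
def cc (j : ℕ) : ℝ := ((j + 1) / 2 : ℕ)

theorem ceil_eq (j : ℕ) : ((⌈(j : ℝ) / 2⌉ : ℤ) : ℝ) = cc j := by
  unfold cc
  have : ⌈(j : ℝ) / 2⌉ = (((j + 1) / 2 : ℕ) : ℤ) := by
    rw [Int.ceil_eq_iff]
    rcases Nat.even_or_odd' j with ⟨r, rfl | rfl⟩
    · have : (2 * r + 1) / 2 = r := by omega
      rw [this]; push_cast
      constructor <;> linarith
    · have : (2 * r + 1 + 1) / 2 = r + 1 := by omega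
      rw [this]; push_cast
      constructor <;> linarith
  rw [this]; push_cast; rfl

theorem sum_cc (M : ℕ) : ∑ j ∈ Icc 1 (2 * M + 1), cc j = ((M : ℝ) + 1) ^ 2 := by
  induction M with
  | zero => simp [cc]
  | succ M ih =>
    have e : 2 * (M + 1) + 1 = (2 * M + 1) + 1 + 1 := by ring
    rw [e, sum_Icc_succ_top (by omega), sum_Icc_succ_top (by omega), ih]
    have h1 : (2 * M + 1 + 1 + 1) / 2 = M + 1 := by omega
    have h2 : (2 * M + 1 + 1 + 1 + 1) / 2 = M + 2 := by omega
    simp only [cc, h1, h2]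
    push_cast
    ring

theorem sum_bound (n : ℕ) (hn : 1 ≤ n) :
    ∑ k ∈ Icc 1 n, bseq k ≤ π / 3 * ∑ j ∈ Icc 1 n, cc j := by
  have hpi := Real.pi_gt_d2
  rcases Nat.even_or_odd' n with ⟨r, rfl | rfl⟩
  · rcases Nat.lt_or_ge r 2 with hr | hr
    · have : r = 1 := by omega
      subst this
      have h : Icc 1 (2 * 1) = {1, 2} := by decide
      rw [h, sum_insert (by decide), sum_insert (by decide), sum_singleton, sum_singleton]
      simp [bseq, cc]
      linarith
    · obtain ⟨M, rfl⟩ : ∃ M, r = M + 1 := ⟨r - 1, by omega⟩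
      have hM : 1 ≤ M := by omega
      have e : 2 * (M + 1) = (2 * M + 1) + 1 := by ring
      rw [e, sum_Icc_succ_top (f := bseq) (by omega), sum_Icc_succ_top (f := cc) (by omega), sum_cc]
      have e1 : 2 * M + 1 + 1 = 2 * (M + 1) := by ring
      have h1 := sum_odd M hM
      have h2 := eps_le_acc M hM
      rw [e1, bseq_even (M + 1) (by omega)]
      have h3 : (2 * (M + 1) + 1) / 2 = M + 1 := by omega
      simp only [cc, h3]
      push_cast at *
      nlinarith [h1, h2, hpi]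
  · rcases Nat.eq_zero_or_pos r with rfl | hr
    · simp [bseq, cc]
      linarith
    · have h1 := sum_odd r hr
      have h2 := acc_le r
      rw [sum_cc]
      nlinarith [h1, h2, hpi]

end

end Pool.Agent.R204.ST
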