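import Mathlib
import Pool.Agent.R204.ST.Stm
import Pool.Agent.R204.ST.Num

/-! Assembly of the Steklov triangle project from the pieces. -/

open MeasureTheory Real Set

namespace Pool.Agent.R204.ST

noncomputable section

theorem sideContA : ∀ m : Fin 3, Continuous (side m)
  | 0 => by
    show Continuous (fun s : ℝ => ((1 : ℝ), s))
    fun_prop
  | 1 => by
    show Continuous (fun s : ℝ => (-1 / 2 - √3 / 2 * s, √3 / 2 - s / 2))
    fun_prop
  | 2 => by
    show Continuous (fun s : ℝ => (-1 / 2 + √3 / 2 * s, -(√3 / 2) - s / 2))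
    fun_prop

theorem B2_symm (u v : ℝ × ℝ → ℝ) : B2 u v = B2 v u := by
  unfold B2; simp only [mul_comm]

theorem E2_symm (u v : ℝ × ℝ → ℝ) : E2 u v = E2 v u := by
  unfold E2; simp only [mul_comm]

theorem B2_comb {u v w : ℝ × ℝ → ℝ} (hu : Continuous u) (hv : Continuous v)
    (hw : Continuous w) (a b : ℝ) :
    B2 u (fun p => a * v p + b * w p) = a * B2 u v + b * B2 u w := by
  unfold B2
  rw [← intervalIntegral.integral_const_mul, ← intervalIntegral.integral_const_mul,
    ← intervalIntegral.integral_add]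
  · congr 1
    funext s
    rw [Finset.mul_sum, Finset.mul_sum, ← Finset.sum_add_distrib]
    refine Finset.sum_congr rfl fun m _ => ?_
    ring
  · apply Continuous.intervalIntegrable
    refine continuous_const.mul (continuous_finsetSum _ fun m _ => ?_)
    exact (hu.comp (sideContA m)).mul (hv.comp (sideContA m))
  · apply Continuous.intervalIntegrable
    refine continuous_const.mul (continuous_finsetSum _ fun m _ => ?_)
    exact (hu.comp (sideContA m)).mul (hw.comp (sideContA m))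

theorem B2_pos {u : ℝ × ℝ → ℝ} (hu : Continuous u) (h : u (1, 0) ≠ 0) : 0 < B2 u u := by
  unfold B2
  have h3 : (0 : ℝ) < √3 := by positivity
  apply intervalIntegral.integral_pos (by linarith)
  · refine (continuous_finsetSum _ fun m _ => ?_).continuousOn
    exact (hu.comp (sideContA m)).mul (hu.comp (sideContA m))
  · intro x _
    exact Finset.sum_nonneg fun m _ => mul_self_nonneg _
  · refine ⟨0, ⟨by linarith, by linarith⟩, ?_⟩
    refine Finset.sum_pos' (fun m _ => mul_self_nonneg _) ⟨0, Finset.mem_univ _, ?_⟩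
    have : side 0 0 = (1, 0) := rfl
    rw [this]
    exact mul_self_pos.2 h

theorem IsStek.smooth {σ : ℝ} {u : ℝ × ℝ → ℝ} (h : IsStek σ u) : ContDiff ℝ ⊤ u := h.1

/-- Orthogonality for different eigenvalues. -/
theorem ortho (hG : ∀ (σ : ℝ) (u v : ℝ × ℝ → ℝ), IsStek σ u → ContDiff ℝ ⊤ v →
    E2 u v = σ * B2 u v) {σ τ : ℝ} {u v : ℝ × ℝ → ℝ} (hu : IsStek σ u) (hv : IsStek τ v)
    (hst : σ ≠ τ) : B2 u v = 0 := by
  have h1 := hG σ u v hu hv.1
  have h2 := hG τ v u hv hu.1
  rw [E2_symm v u, B2_symm v u, h1] at h2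
  have h3 : (σ - τ) * B2 u v = 0 := by linarith
  rcases mul_eq_zero.1 h3 with h | h
  · exact absurd (by linarith) hst
  · exact h

/-- the constant -/
def one : ℝ × ℝ → ℝ := fun _ => 1

/-- the cubic eigenfunction -/
def cub : ℝ × ℝ → ℝ := fun p => p.1 ^ 3 - 3 * p.1 * p.2 ^ 2 + 2

theorem one_stek : IsStek 0 one := by
  have h0 : ∀ v q, fderiv ℝ one q v = 0 := by
    intro v q
    have : one = fun _ => (1 : ℝ) := rfl
    rw [this]
    simp
  refine ⟨contDiff_const, ?_, ?_⟩
  · intro p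
    simp [h0]
  · intro m s
    simp [h0]

theorem cub_fderiv (p v : ℝ × ℝ) :
    fderiv ℝ cub p v = (3 * p.1 ^ 2 - 3 * p.2 ^ 2) * v.1 - 6 * p.1 * p.2 * v.2 := by
  have h : HasFDerivAt cub
      ((3 * p.1 ^ 2 - 3 * p.2 ^ 2) • (ContinuousLinearMap.fst ℝ ℝ ℝ)
        - (6 * p.1 * p.2) • (ContinuousLinearMap.snd ℝ ℝ ℝ)) p := by
    have h1 : HasFDerivAt (fun q : ℝ × ℝ => q.1) (ContinuousLinearMap.fst ℝ ℝ ℝ) p :=
      hasFDerivAt_fst
    have h2 : HasFDerivAt (fun q : ℝ × ℝ => q.2) (ContinuousLinearMap.snd ℝ ℝ ℝ) p :=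
      hasFDerivAt_snd
    have h3 := ((h1.pow 3).sub ((h1.const_mul 3).mul (h2.pow 2))).add_const 2
    refine h3.congr_fderiv ?_
    ext <;> simp <;> ring
  rw [h.fderiv]
  simp

theorem cub_stek : IsStek 1 cub := by
  refine ⟨by unfold cub; fun_prop, ?_, ?_⟩
  · intro p
    simp only [cub_fderiv, mul_one, mul_zero, sub_zero, zero_sub]
    have h1 : HasFDerivAt (fun q : ℝ × ℝ => q.1) (ContinuousLinearMap.fst ℝ ℝ ℝ) p :=
      hasFDerivAt_fst
    have h2 : HasFDerivAt (fun q : ℝ × ℝ => q.2) (ContinuousLinearMap.snd ℝ ℝ ℝ) p :=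
      hasFDerivAt_snd
    have e1 := (((h1.pow 2).const_mul 3).sub ((h2.pow 2).const_mul 3)).fderiv
    have e2 := ((h1.const_mul 6).mul h2).neg.fderiv
    have e1' : fderiv ℝ (fun q : ℝ × ℝ => 3 * q.1 ^ 2 - 3 * q.2 ^ 2 + (0:ℝ) * 1) p (1, 0)
        = 6 * p.1 := by
      have : (fun q : ℝ × ℝ => 3 * q.1 ^ 2 - 3 * q.2 ^ 2 + (0:ℝ) * 1)
          = (fun q : ℝ × ℝ => 3 * q.1 ^ 2 - 3 * q.2 ^ 2) := by funext q; ring
      rw [this]
      erw [e1]
      simp
      ring
    have e2' : fderiv ℝ (fun q : ℝ × ℝ => -(6 * q.1 * q.2)) p (0, 1) = -(6 * p.1) := by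
      erw [e2]
      simp
    have e1'' : fderiv ℝ (fun q : ℝ × ℝ => 3 * q.1 ^ 2 - 3 * q.2 ^ 2) p (1, 0)
        = 6 * p.1 := by
      erw [e1]
      simp
      ring
    rw [e1'', e2']
    ring
  · intro m s
    have hs : √3 * √3 = 3 := Real.mul_self_sqrt (by norm_num)
    have hs2 : √3 ^ 2 = 3 := Real.sq_sqrt (by norm_num)
    have hs3 : √3 ^ 3 = 3 * √3 := by rw [pow_succ, hs2]
    rw [cub_fderiv]
    fin_cases m
    · simp [side, cub]; ring
    · simp only [side, cub]
      ring_nf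
      rw [hs3, hs2]
      ring_nf
    · simp only [side, cub]
      ring_nf
      rw [hs3, hs2]
      ring_nf

theorem F_comb (c t q θ : ℝ) :
    F c t q θ = fun p => cos θ * F c t q 0 p + sin θ * F c t q (π / 2) p := by
  funext p
  have key : ∀ c f C S φ : ℝ, wave c f C S (φ - θ) p
      = cos θ * wave c f C S φ p + sin θ * wave c f C S (φ - π / 2) p := by
    intro c f C S φ
    unfold wave
    have e1 : φ - θ + c * (S * p.1 + C * p.2) = (φ + c * (S * p.1 + C * p.2)) - θ := by ring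
    have e2 : φ - π / 2 + c * (S * p.1 + C * p.2)
        = (φ + c * (S * p.1 + C * p.2)) - π / 2 := by ring
    rw [e1, e2, cos_sub, cos_sub_pi_div_two]
    ring
  unfold F
  have k0 := key c (f0 c t) 1 0 0
  rw [zero_sub, zero_sub] at k0
  rw [k0, key, key]
  simp only [neg_zero, sub_zero]
  ring

theorem F_cont (c t q θ : ℝ) : Continuous (F c t q θ) := by
  unfold F wave
  fun_prop

theorem pair_of_par (hPhi : PhiStmt) (hPos : PosStmt) (j : ℕ) (c t : ℝ)
    (h : Par (2 * π * j / 3) c t) :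
    ∃ u v, IsStek (c / t) u ∧ IsStek (c / t) v ∧ B2 u v = 0 ∧ 0 < B2 u u ∧ 0 < B2 v v := by
  set a := B2 (F c t (2 * π * j / 3) 0) (F c t (2 * π * j / 3) 0) with ha
  set b := B2 (F c t (2 * π * j / 3) 0) (F c t (2 * π * j / 3) (π / 2)) with hb
  have hapos : 0 < a := hPos j c t 0 h.1 h.2.1
  refine ⟨F c t (2 * π * j / 3) 0, F c t (2 * π * j / 3) (π / 2 + arctan (b / a)),
    hPhi j c t _ h, hPhi j c t _ h, ?_, hapos, hPos j c t _ h.1 h.2.1⟩
  rw [F_comb c t _ (π / 2 + arctan (b / a)), B2_comb (F_cont _ _ _ _) (F_cont _ _ _ _)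
    (F_cont _ _ _ _), ← ha, ← hb]
  have e1 : cos (π / 2 + arctan (b / a)) = - sin (arctan (b / a)) := by
    rw [add_comm, cos_add_pi_div_two]
  have e2 : sin (π / 2 + arctan (b / a)) = cos (arctan (b / a)) := by
    rw [add_comm, sin_add_pi_div_two]
  rw [e1, e2, sin_arctan, cos_arctan]
  field_simp
  ring

theorem pair_exists (hPhi : PhiStmt) (hPos : PosStmt) (hEx1 : Ex1Stmt) (hEx2 : Ex2Stmt)
    (m : ℕ) : ∃ (σ : ℝ) (u v : ℝ × ℝ → ℝ), 1 ≤ m →
      IsStek σ u ∧ IsStek σ v ∧ B2 u v = 0 ∧ 0 < B2 u u ∧ 0 < B2 v v ∧ 0 < σ ∧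
      (m = 1 → √3 * σ ≤ 7 / 10) ∧
      (2 ≤ m → π * (2 * m + 1) / 6 - 3 / 10 ≤ √3 * σ ∧
        √3 * σ ≤ π * (2 * m + 1) / 6 + eps m) := by
  rcases Nat.lt_trichotomy m 1 with h | rfl | h
  · exact ⟨0, one, one, fun h' => by omega⟩
  · obtain ⟨⟨c, t, hp, hle⟩, -⟩ := hEx2
    obtain ⟨u, v, h1, h2, h3, h4, h5⟩ := pair_of_par hPhi hPos 1 c t hp
    refine ⟨c / t, u, v, fun _ => ⟨h1, h2, h3, h4, h5, div_pos hp.1 hp.2.1, fun _ => ?_,
      fun h => by omega⟩⟩
    rw [← mul_div_assoc]; exact hle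
  · rcases Nat.even_or_odd' m with ⟨r, rfl | rfl⟩
    · -- m = 2 r, j = r + 1
      obtain ⟨c, t, hp, hl, hu⟩ := hEx2.2 (r + 1) (by omega)
      obtain ⟨u, v, h1, h2, h3, h4, h5⟩ := pair_of_par hPhi hPos (r + 1) c t hp
      refine ⟨c / t, u, v, fun _ => ⟨h1, h2, h3, h4, h5, div_pos hp.1 hp.2.1,
        fun h => by omega, fun _ => ?_⟩⟩
      rw [← mul_div_assoc]
      have he : eps (2 * r) = 0 := by
        unfold eps; rw [if_pos ⟨r, by ring⟩]
      rw [he]
      push_cast at *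
      constructor <;> linarith
    · -- m = 2 r + 1, j = r
      obtain ⟨c, t, hp, hl, hu⟩ := hEx1 r (by omega)
      obtain ⟨u, v, h1, h2, h3, h4, h5⟩ := pair_of_par hPhi hPos r c t hp
      refine ⟨c / t, u, v, fun _ => ⟨h1, h2, h3, h4, h5, div_pos hp.1 hp.2.1,
        fun h => by omega, fun _ => ?_⟩⟩
      rw [← mul_div_assoc]
      have he : eps (2 * r + 1) = 1 / 5 * (1 / 2) ^ r := by
        unfold eps
        rw [if_neg (by rw [Nat.not_even_iff_odd]; exact ⟨r, rfl⟩)]
        congr 2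
        omega
      rw [he]
      push_cast at *
      constructor <;> linarith

theorem eps_le (m : ℕ) (hm : 2 ≤ m) : eps m ≤ 1 / 10 := by
  unfold eps
  split_ifs with h
  · norm_num
  · have h1 : 1 ≤ (m - 1) / 2 := by
      rcases Nat.even_or_odd' m with ⟨r, rfl | rfl⟩
      · exact absurd ⟨r, by ring⟩ h
      · omega
    have h2 : (1 / 2 : ℝ) ^ ((m - 1) / 2) ≤ (1 / 2) ^ 1 :=
      pow_le_pow_of_le_one (by norm_num) (by norm_num) h1
    linarith

/-- eigenvalue upper bounds -/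
theorem steklov_le (hG : ∀ (σ : ℝ) (u v : ℝ × ℝ → ℝ), IsStek σ u → ContDiff ℝ ⊤ v →
    E2 u v = σ * B2 u v) (hMM : MinMaxStmt) (hPhi : PhiStmt) (hPos : PosStmt)
    (hEx1 : Ex1Stmt) (hEx2 : Ex2Stmt) (k : ℕ) (hk : 1 ≤ k) : √3 * steklov k ≤ bseq k := by
  choose σ u v H using pair_exists hPhi hPos hEx1 hEx2
  have h3 : (0 : ℝ) < √3 := by positivity
  have hpi := Real.pi_gt_d2
  -- definitions
  let mk : ℕ → ℕ := fun k => if k ≤ 2 then 1 else k / 2
  have hmk : ∀ k, k ≠ 3 → 1 ≤ mk k := by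
    intro k hk
    simp only [mk]
    split_ifs <;> omega
  let e : ℕ → ℝ × ℝ → ℝ := fun k => if k = 0 then one else if k = 3 then cub
    else if (k = 1 ∨ (4 ≤ k ∧ k % 2 = 0)) then u (mk k) else v (mk k)
  let s : ℕ → ℝ := fun k => if k = 0 then 0 else if k = 3 then 1 else σ (mk k)
  have hstek : ∀ k, IsStek (s k) (e k) := by
    intro k
    simp only [s, e]
    split_ifs with h1 h2 h4
    · exact one_stek
    · exact cub_stek
    · exact (H (mk k) (hmk k h2)).1
    · exact (H (mk k) (hmk k h2)).2.1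
  have hpos : ∀ k, 0 < B2 (e k) (e k) := by
    intro k
    simp only [e]
    split_ifs with h1 h2 h4
    · exact B2_pos one_stek.smooth.continuous (by simp [one])
    · exact B2_pos cub_stek.smooth.continuous (by simp [cub]; norm_num)
    · exact (H (mk k) (hmk k h2)).2.2.2.1
    · exact (H (mk k) (hmk k h2)).2.2.2.2.1
  -- comparison of the eigenvalues
  have hσ1 : σ 1 < 1 := by
    have h := (H 1 le_rfl).2.2.2.2.2.2.1 rfl
    have h' : (1.7 : ℝ) < √3 := by
      rw [Real.lt_sqrt (by norm_num)]; norm_num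
    by_contra hcon
    push Not at hcon
    nlinarith
  have hσm : ∀ m, 2 ≤ m → 1 < σ m := by
    intro m hm
    have h := ((H m (by omega)).2.2.2.2.2.2.2 hm).1
    have hm' : (2 : ℝ) ≤ m := by exact_mod_cast hm
    have h2 := sqrt3_le
    have h4 : √3 * 1 < √3 * σ m := by nlinarith
    exact lt_of_mul_lt_mul_left h4 h3.le
  have hσmm : ∀ m m', 2 ≤ m → m < m' → σ m < σ m' := by
    intro m m' hm hmm
    have h := ((H m (by omega)).2.2.2.2.2.2.2 hm).2
    have h' := ((H m' (by omega)).2.2.2.2.2.2.2 (by omega)).1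
    have he := eps_le m hm
    have hm' : (m : ℝ) + 1 ≤ m' := by exact_mod_cast hmm
    have h4 : √3 * σ m < √3 * σ m' := by nlinarith
    exact lt_of_mul_lt_mul_left h4 h3.le
  have hcmp : ∀ i j, i < j → s i < s j ∨ (i = 1 ∧ j = 2) ∨ ∃ m, 2 ≤ m ∧ i = 2 * m ∧
      j = 2 * m + 1 := by
    intro i j hij
    simp only [s, mk]
    rcases Nat.eq_zero_or_pos i with rfl | hi
    · left
      rw [if_pos rfl, if_neg (by omega)]
      split_ifs with h1 h2
      · norm_num
      · exact (H 1 le_rfl).2.2.2.2.2.1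
      · exact (H _ (by omega)).2.2.2.2.2.1
    · rcases Nat.lt_or_ge i 3 with hi3 | hi3
      · rcases Nat.lt_or_ge j 3 with hj3 | hj3
        · right; left; omega
        · left
          rw [if_neg (by omega), if_neg (by omega), if_pos (by omega), if_neg (by omega)]
          split_ifs with h1 h2
          · exact hσ1
          · omega
          · exact hσ1.trans (hσm _ (by omega))
      · rcases Nat.eq_or_lt_of_le hi3 with rfl | hi4
        · left
          rw [if_neg (by omega), if_pos rfl, if_neg (by omega), if_neg (by omega),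
            if_neg (by omega)]
          exact hσm _ (by omega)
        · rcases Nat.lt_or_ge (i / 2) (j / 2) with hh | hh
          · left
            rw [if_neg (by omega), if_neg (by omega), if_neg (by omega), if_neg (by omega),
              if_neg (by omega), if_neg (by omega)]
            exact hσmm _ _ (by omega) hh
          · right; right
            exact ⟨i / 2, by omega, by omega, by omega⟩
  have hle : ∀ i j, i ≤ j → s i ≤ s j := by
    intro i j hij
    rcases Nat.eq_or_lt_of_le hij with rfl | hij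
    · exact le_rfl
    · rcases hcmp i j hij with h | ⟨rfl, rfl⟩ | ⟨m, hm, rfl, rfl⟩
      · exact h.le
      · simp [s, mk]
      · simp only [s, mk]
        rw [if_neg (by omega), if_neg (by omega), if_neg (by omega), if_neg (by omega),
          if_neg (by omega), if_neg (by omega)]
        apply le_of_eq
        congr 1
        omega
  have hortho : ∀ i j, i < j → B2 (e i) (e j) = 0 := by
    intro i j hij
    rcases hcmp i j hij with h | ⟨rfl, rfl⟩ | ⟨m, hm, rfl, rfl⟩
    · exact ortho hG (hstek i) (hstek j) h.ne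
    · have := (H 1 le_rfl).2.2.1
      simpa [e, mk] using this
    · have := (H m (by omega)).2.2.1
      simp only [e, mk]
      rw [if_neg (by omega), if_neg (by omega), if_pos (by omega), if_neg (by omega),
        if_neg (by omega), if_neg (by omega), if_neg (by omega), if_neg (by omega)]
      have e1 : 2 * m / 2 = m := by omega
      have e2 : (2 * m + 1) / 2 = m := by omega
      rw [e1, e2]
      exact this
  have hmain : steklov k ≤ s k := by
    apply hMM k (s k) (fun i => e i) (fun i => s i)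
    · intro i; exact (hstek i).1
    · intro i j; exact hG _ _ _ (hstek i) (hstek j).1
    · intro i j hij
      rcases lt_or_gt_of_ne (fun h => hij (Fin.ext h) : (i : ℕ) ≠ j) with h | h
      · exact hortho _ _ h
      · rw [B2_symm]; exact hortho _ _ h
    · intro i; exact hpos i
    · intro i; exact hle _ _ (by omega)
  have h5 : √3 * s k ≤ bseq k := by
    simp only [s, mk, bseq]
    rw [if_neg (by omega)]
    split_ifs with h1 h2 h4
    · omega
    · rw [mul_one]
    · exact (H 1 le_rfl).2.2.2.2.2.2.1 rfl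
    · exact ((H (k / 2) (by omega)).2.2.2.2.2.2.2 (by omega)).2
  nlinarith

theorem final (hG : ∀ (σ : ℝ) (u v : ℝ × ℝ → ℝ), IsStek σ u → ContDiff ℝ ⊤ v →
    E2 u v = σ * B2 u v) (hMM : MinMaxStmt) (hPhi : PhiStmt) (hPos : PosStmt)
    (hEx1 : Ex1Stmt) (hEx2 : Ex2Stmt) (n : ℕ) (hn : 1 ≤ n) :
    (∑ k ∈ Finset.Icc 1 n, steklov k) * (6 * √3) ≤
      2 * π * ∑ j ∈ Finset.Icc 1 n, ((⌈(j : ℝ) / 2⌉ : ℤ) : ℝ) := by
  have h1 : ∑ k ∈ Finset.Icc 1 n, √3 * steklov k ≤ ∑ k ∈ Finset.Icc 1 n, bseq k :=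
    Finset.sum_le_sum fun k hk =>
      steklov_le hG hMM hPhi hPos hEx1 hEx2 k (Finset.mem_Icc.1 hk).1
  have h2 := sum_bound n hn
  have h3 : ∑ j ∈ Finset.Icc 1 n, ((⌈(j : ℝ) / 2⌉ : ℤ) : ℝ) = ∑ j ∈ Finset.Icc 1 n, cc j :=
    Finset.sum_congr rfl fun j _ => ceil_eq j
  rw [h3]
  rw [← Finset.mul_sum] at h1
  nlinarith

end

end Pool.Agent.R204.ST
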