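import Mathlib
import Pool.Agent.R204.ST.Stm

/-! The divergence theorem on the equilateral triangle. -/

open MeasureTheory Real Set

namespace Pool.Agent.R204.ST

noncomputable section

namespace DivAux

theorem r3 : √3 * √3 = (3 : ℝ) := Real.mul_self_sqrt (by norm_num)

theorem r3pos : (0 : ℝ) < √3 := Real.sqrt_pos.2 (by norm_num)

theorem mem_T_x (x y : ℝ) :
    ((x, y) : ℝ × ℝ) ∈ T ↔ x ∈ Icc (-2 : ℝ) 1 ∧ y ∈ Icc (-((2 + x) / √3)) ((2 + x) / √3) := by
  have h := r3pos
  simp only [T, mem_ofPred_eq, mem_Icc]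
  rw [← neg_div, div_le_iff₀ h, le_div_iff₀ h]
  constructor
  · rintro ⟨h1, h2, h3⟩
    refine ⟨⟨by linarith, h1⟩, by linarith, by linarith⟩
  · rintro ⟨⟨_, h1⟩, h2, h3⟩
    refine ⟨h1, by linarith, by linarith⟩

theorem mem_T_y (x y : ℝ) :
    ((x, y) : ℝ × ℝ) ∈ T ↔ y ∈ Icc (-√3) √3 ∧ x ∈ Icc (√3 * |y| - 2) 1 := by
  have h := r3pos
  have h3 := r3
  simp only [T, mem_ofPred_eq, mem_Icc]
  constructor
  · rintro ⟨h1, h2, h4⟩
    have hy : √3 * |y| ≤ x + 2 := by
      rcases abs_cases y with ⟨e, _⟩ | ⟨e, _⟩ <;> rw [e] <;> linarith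
    refine ⟨⟨?_, ?_⟩, by linarith, h1⟩
    · by_contra hc
      push Not at hc
      nlinarith
    · by_contra hc
      push Not at hc
      nlinarith
  · rintro ⟨⟨_, _⟩, h1, h2⟩
    have ha := le_abs_self y
    have hb := neg_abs_le y
    refine ⟨h2, by nlinarith, by nlinarith⟩

theorem isClosed_T : IsClosed T := by
  have h1 : IsClosed {p : ℝ × ℝ | p.1 ≤ 1} := isClosed_le (by fun_prop) (by fun_prop)
  have h2 : IsClosed {p : ℝ × ℝ | -p.1 + √3 * p.2 ≤ 2} := isClosed_le (by fun_prop) (by fun_prop)
  have h3 : IsClosed {p : ℝ × ℝ | -p.1 - √3 * p.2 ≤ 2} := isClosed_le (by fun_prop) (by fun_prop)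
  exact h1.inter (h2.inter h3)

theorem isCompact_T : IsCompact T := by
  apply IsCompact.of_isClosed_subset (isCompact_Icc.prod isCompact_Icc :
    IsCompact (Icc (-2 : ℝ) 1 ×ˢ Icc (-√3) √3)) isClosed_T
  rintro ⟨x, y⟩ hp
  exact ⟨((mem_T_x x y).1 hp).1, ((mem_T_y x y).1 hp).1⟩

theorem int_T {f : ℝ × ℝ → ℝ} (hf : Continuous f) : IntegrableOn f T :=
  hf.continuousOn.integrableOn_compact isCompact_T

theorem fub_x {f : ℝ × ℝ → ℝ} (hf : Continuous f) :
    ∫ p in T, f p = ∫ x in (-2 : ℝ)..1, ∫ y in (-((2 + x) / √3))..((2 + x) / √3), f (x, y) := by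
  have hi : Integrable (T.indicator f) :=
    (integrable_indicator_iff isClosed_T.measurableSet).2 (int_T hf)
  rw [← integral_indicator isClosed_T.measurableSet, Measure.volume_eq_prod, integral_prod _ hi]
  have h1 : ∀ x : ℝ, ∫ y, T.indicator f (x, y) =
      (Icc (-2 : ℝ) 1).indicator
        (fun x => ∫ y in (-((2 + x) / √3))..((2 + x) / √3), f (x, y)) x := by
    intro x
    by_cases hx : x ∈ Icc (-2 : ℝ) 1
    · rw [indicator_of_mem hx]
      have hle : -((2 + x) / √3) ≤ (2 + x) / √3 := by
        have : 0 ≤ (2 + x) / √3 := div_nonneg (by linarith [hx.1]) r3pos.le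
        linarith
      rw [intervalIntegral.integral_of_le hle, ← integral_Icc_eq_integral_Ioc,
        ← integral_indicator measurableSet_Icc]
      congr 1
      funext y
      by_cases hy : y ∈ Icc (-((2 + x) / √3)) ((2 + x) / √3)
      · rw [indicator_of_mem hy, indicator_of_mem ((mem_T_x x y).2 ⟨hx, hy⟩)]
      · rw [indicator_of_notMem hy, indicator_of_notMem]
        intro h
        exact hy ((mem_T_x x y).1 h).2
    · rw [indicator_of_notMem hx]
      have : ∀ y, T.indicator f (x, y) = 0 := by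
        intro y
        rw [indicator_of_notMem]
        intro h
        exact hx ((mem_T_x x y).1 h).1
      simp [this]
  simp_rw [h1]
  rw [integral_indicator measurableSet_Icc, intervalIntegral.integral_of_le (by norm_num),
    integral_Icc_eq_integral_Ioc]

theorem fub_y {f : ℝ × ℝ → ℝ} (hf : Continuous f) :
    ∫ p in T, f p = ∫ y in (-√3)..√3, ∫ x in (√3 * |y| - 2)..1, f (x, y) := by
  have hi : Integrable (T.indicator f) :=
    (integrable_indicator_iff isClosed_T.measurableSet).2 (int_T hf)
  rw [← integral_indicator isClosed_T.measurableSet, Measure.volume_eq_prod,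
    integral_prod_symm _ hi]
  have h1 : ∀ y : ℝ, ∫ x, T.indicator f (x, y) =
      (Icc (-√3) √3).indicator (fun y => ∫ x in (√3 * |y| - 2)..1, f (x, y)) y := by
    intro y
    by_cases hy : y ∈ Icc (-√3) √3
    · rw [indicator_of_mem hy]
      have hle : √3 * |y| - 2 ≤ 1 := by
        have h2 : |y| ≤ √3 := abs_le.2 ⟨hy.1, hy.2⟩
        have h3 := mul_le_mul_of_nonneg_left h2 r3pos.le
        rw [r3] at h3
        linarith
      rw [intervalIntegral.integral_of_le hle, ← integral_Icc_eq_integral_Ioc,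
        ← integral_indicator measurableSet_Icc]
      congr 1
      funext x
      by_cases hx : x ∈ Icc (√3 * |y| - 2) 1
      · rw [indicator_of_mem hx, indicator_of_mem ((mem_T_y x y).2 ⟨hy, hx⟩)]
      · rw [indicator_of_notMem hx, indicator_of_notMem]
        intro h
        exact hx ((mem_T_y x y).1 h).2
    · rw [indicator_of_notMem hy]
      have : ∀ x, T.indicator f (x, y) = 0 := by
        intro x
        rw [indicator_of_notMem]
        intro h
        exact hy ((mem_T_y x y).1 h).1
      simp [this]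
  simp_rw [h1]
  have hrr : -√3 ≤ (√3 : ℝ) := by linarith [r3pos]
  rw [integral_indicator measurableSet_Icc, intervalIntegral.integral_of_le hrr,
    integral_Icc_eq_integral_Ioc]

theorem contA {A : ℝ × ℝ → ℝ} (hA : ContDiff ℝ 1 A) (v : ℝ × ℝ) :
    Continuous fun p => fderiv ℝ A p v :=
  (hA.continuous_fderiv (by norm_num)).clm_apply continuous_const

theorem partA {A : ℝ × ℝ → ℝ} (hA : ContDiff ℝ 1 A) :
    ∫ p in T, fderiv ℝ A p (1, 0) =
      (∫ s in (-√3)..√3, A (side 0 s)) - (1 / 2) * (∫ s in (-√3)..√3, A (side 1 s))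
        - (1 / 2) * (∫ s in (-√3)..√3, A (side 2 s)) := by
  have hd : Differentiable ℝ A := hA.differentiable (by norm_num)
  have hc : Continuous A := hA.continuous
  rw [fub_y (contA hA (1, 0))]
  have hftc : ∀ y : ℝ, ∫ x in (√3 * |y| - 2)..1, fderiv ℝ A (x, y) (1, 0) =
      A (1, y) - A (√3 * |y| - 2, y) := by
    intro y
    rw [intervalIntegral.integral_eq_sub_of_hasDerivAt (f := fun x => A (x, y))]
    · intro x _
      have h1 : HasDerivAt (fun x : ℝ => ((x, y) : ℝ × ℝ)) (1, 0) x :=
        (hasDerivAt_id x).prodMk (hasDerivAt_const x y)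
      exact (hd (x, y)).hasFDerivAt.comp_hasDerivAt x h1
    · apply Continuous.intervalIntegrable
      exact (contA hA (1, 0)).comp (by fun_prop)
  simp_rw [hftc]
  rw [intervalIntegral.integral_sub]
  · -- the two slanted sides
    have hside0 : (fun s : ℝ => A (side 0 s)) = fun y => A (1, y) := by
      funext s
      rfl
    have hcont : Continuous fun y : ℝ => A (√3 * |y| - 2, y) := hc.comp (by fun_prop)
    have hsplit := intervalIntegral.integral_add_adjacent_intervals
      (a := -√3) (b := 0) (c := √3) (μ := volume) (f := fun y : ℝ => A (√3 * |y| - 2, y))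
      (hcont.intervalIntegrable _ _) (hcont.intervalIntegrable _ _)
    have h1 : ∫ s in (-√3)..√3, A (side 1 s) = 2 * ∫ y in (0 : ℝ)..√3, A (√3 * |y| - 2, y) := by
      have e : ∀ s : ℝ, A (side 1 s) =
          (fun y : ℝ => A (√3 * y - 2, y)) (√3 / 2 - 1 / 2 * s) := by
        intro s
        simp only [side]
        congr 1
        ext
        · change -1 / 2 - √3 / 2 * s = √3 * (√3 / 2 - 1 / 2 * s) - 2
          nlinarith [r3]
        · change √3 / 2 - s / 2 = √3 / 2 - 1 / 2 * s
          ring
      simp_rw [e]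
      rw [intervalIntegral.integral_comp_sub_mul (fun y : ℝ => A (√3 * y - 2, y))
        (by norm_num : (1 / 2 : ℝ) ≠ 0)]
      have e1 : √3 / 2 - 1 / 2 * √3 = 0 := by ring
      have e2 : √3 / 2 - 1 / 2 * -√3 = √3 := by ring
      rw [e1, e2]
      have e3 : ∫ y in (0 : ℝ)..√3, A (√3 * |y| - 2, y) =
          ∫ y in (0 : ℝ)..√3, A (√3 * y - 2, y) := by
        apply intervalIntegral.integral_congr
        intro y hy
        rw [uIcc_of_le r3pos.le] at hy
        beta_reduce
        rw [abs_of_nonneg hy.1]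
      rw [e3]
      norm_num
    have h2 : ∫ s in (-√3)..√3, A (side 2 s) = 2 * ∫ y in (-√3)..0, A (√3 * |y| - 2, y) := by
      have e : ∀ s : ℝ, A (side 2 s) =
          (fun y : ℝ => A (-√3 * y - 2, y)) (-(√3 / 2) - 1 / 2 * s) := by
        intro s
        simp only [side]
        congr 1
        ext
        · change -1 / 2 + √3 / 2 * s = -√3 * (-(√3 / 2) - 1 / 2 * s) - 2
          nlinarith [r3]
        · change -(√3 / 2) - s / 2 = -(√3 / 2) - 1 / 2 * s
          ring
      simp_rw [e]
      rw [intervalIntegral.integral_comp_sub_mul (fun y : ℝ => A (-√3 * y - 2, y))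
        (by norm_num : (1 / 2 : ℝ) ≠ 0)]
      have e1 : -(√3 / 2) - 1 / 2 * √3 = -√3 := by ring
      have e2 : -(√3 / 2) - 1 / 2 * -√3 = 0 := by ring
      rw [e1, e2]
      have e3 : ∫ y in (-√3)..0, A (√3 * |y| - 2, y) =
          ∫ y in (-√3)..0, A (-√3 * y - 2, y) := by
        apply intervalIntegral.integral_congr
        intro y hy
        rw [uIcc_of_le (by linarith [r3pos])] at hy
        beta_reduce
        rw [abs_of_nonpos hy.2]
        congr 2
        ring
      rw [e3]
      norm_num
    rw [h1, h2, hside0, ← hsplit]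
    ring
  · apply Continuous.intervalIntegrable
    exact hc.comp (by fun_prop)
  · apply Continuous.intervalIntegrable
    exact hc.comp (by fun_prop)

theorem partB {B : ℝ × ℝ → ℝ} (hB : ContDiff ℝ 1 B) :
    ∫ p in T, fderiv ℝ B p (0, 1) =
      (√3 / 2) * (∫ s in (-√3)..√3, B (side 1 s))
        - (√3 / 2) * (∫ s in (-√3)..√3, B (side 2 s)) := by
  have hd : Differentiable ℝ B := hB.differentiable (by norm_num)
  have hc : Continuous B := hB.continuous
  have hr := r3pos
  have hr0 : (√3 : ℝ) ≠ 0 := hr.ne'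
  rw [fub_x (contA hB (0, 1))]
  have hftc : ∀ x : ℝ, ∫ y in (-((2 + x) / √3))..((2 + x) / √3), fderiv ℝ B (x, y) (0, 1) =
      B (x, (2 + x) / √3) - B (x, -((2 + x) / √3)) := by
    intro x
    rw [intervalIntegral.integral_eq_sub_of_hasDerivAt (f := fun y => B (x, y))]
    · intro y _
      have h1 : HasDerivAt (fun y : ℝ => ((x, y) : ℝ × ℝ)) (0, 1) y :=
        (hasDerivAt_const y x).prodMk (hasDerivAt_id y)
      exact (hd (x, y)).hasFDerivAt.comp_hasDerivAt y h1
    · apply Continuous.intervalIntegrable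
      exact (contA hB (0, 1)).comp (by fun_prop)
  simp_rw [hftc]
  rw [intervalIntegral.integral_sub]
  · have h1 : ∫ s in (-√3)..√3, B (side 1 s) =
        (√3 / 2)⁻¹ * ∫ x in (-2 : ℝ)..1, B (x, (2 + x) / √3) := by
      have e : ∀ s : ℝ, B (side 1 s) =
          (fun x : ℝ => B (x, (2 + x) / √3)) (-1 / 2 - √3 / 2 * s) := by
        intro s
        simp only [side]
        congr 1
        ext
        · rfl
        · change √3 / 2 - s / 2 = (2 + (-1 / 2 - √3 / 2 * s)) / √3
          rw [eq_div_iff hr0]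
          nlinarith [r3]
      simp_rw [e]
      rw [intervalIntegral.integral_comp_sub_mul (fun x : ℝ => B (x, (2 + x) / √3))
        (by positivity : (√3 / 2 : ℝ) ≠ 0)]
      have e1 : -1 / 2 - √3 / 2 * √3 = -2 := by nlinarith [r3]
      have e2 : -1 / 2 - √3 / 2 * -√3 = 1 := by nlinarith [r3]
      rw [e1, e2, smul_eq_mul]
    have h2 : ∫ s in (-√3)..√3, B (side 2 s) =
        (√3 / 2)⁻¹ * ∫ x in (-2 : ℝ)..1, B (x, -((2 + x) / √3)) := by
      have e : ∀ s : ℝ, B (side 2 s) =
          (fun x : ℝ => B (x, -((2 + x) / √3))) (-1 / 2 + √3 / 2 * s) := by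
        intro s
        simp only [side]
        congr 1
        ext
        · rfl
        · change -(√3 / 2) - s / 2 = -((2 + (-1 / 2 + √3 / 2 * s)) / √3)
          have e9 : (2 + (-1 / 2 + √3 / 2 * s)) / √3 = √3 / 2 + s / 2 := by
            rw [div_eq_iff hr0]
            nlinarith [r3]
          rw [e9]
          ring
      simp_rw [e]
      rw [intervalIntegral.integral_comp_add_mul (fun x : ℝ => B (x, -((2 + x) / √3)))
        (by positivity : (√3 / 2 : ℝ) ≠ 0)]
      have e1 : -1 / 2 + √3 / 2 * √3 = 1 := by nlinarith [r3]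
      have e2 : -1 / 2 + √3 / 2 * -√3 = -2 := by nlinarith [r3]
      rw [e1, e2, smul_eq_mul]
    rw [h1, h2, ← mul_assoc, ← mul_assoc, mul_inv_cancel₀ (by positivity), one_mul, one_mul]
  · apply Continuous.intervalIntegrable
    exact hc.comp (by fun_prop)
  · apply Continuous.intervalIntegrable
    exact hc.comp (by fun_prop)

@[fun_prop]
theorem cont_side (m : Fin 3) : Continuous (side m) := by
  fin_cases m
  · change Continuous fun s : ℝ => ((1, s) : ℝ × ℝ)
    fun_prop
  · change Continuous fun s : ℝ => ((-1 / 2 - √3 / 2 * s, √3 / 2 - s / 2) : ℝ × ℝ)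
    fun_prop
  · change Continuous fun s : ℝ => ((-1 / 2 + √3 / 2 * s, -(√3 / 2) - s / 2) : ℝ × ℝ)
    fun_prop

end DivAux

open DivAux in
theorem div_stmt : DivStmt := by
  intro A B hA hB
  rw [integral_add (int_T (contA hA (1, 0))) (int_T (contA hB (0, 1))), partA hA, partB hB]
  have hcA : Continuous A := hA.continuous
  have hcB : Continuous B := hB.continuous
  have e : ∀ s : ℝ, ∑ m : Fin 3,
        (A (side m s) * (side m 0).1 + B (side m s) * (side m 0).2) =
      A (side 0 s) - (1 / 2) * A (side 1 s) - (1 / 2) * A (side 2 s)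
        + ((√3 / 2) * B (side 1 s) - (√3 / 2) * B (side 2 s)) := by
    intro s
    rw [Fin.sum_univ_three]
    simp only [side]
    ring
  simp_rw [e]
  rw [intervalIntegral.integral_add, intervalIntegral.integral_sub, intervalIntegral.integral_sub,
    intervalIntegral.integral_sub, intervalIntegral.integral_const_mul,
    intervalIntegral.integral_const_mul, intervalIntegral.integral_const_mul,
    intervalIntegral.integral_const_mul]
  all_goals
    apply Continuous.intervalIntegrable
    fun_prop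

end

end Pool.Agent.R204.ST
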