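import Pool.Agent.R204.ST.Stm

/-! P5 of MP_1de434_an: the family `t < 1`. -/

set_option autoImplicit false

open MeasureTheory Real Set

namespace Pool.Agent.R204.ST

/-- the argument of the logarithm -/
noncomputable def rr (t : ℝ) : ℝ := (1 + t + t ^ 2) * (1 + t) ^ 2 / ((1 - t + t ^ 2) * (1 - t) ^ 2)

noncomputable def cfun (t : ℝ) : ℝ := 1 / 6 * log (rr t)

noncomputable def chi (t : ℝ) : ℝ := arctan (√3 * t / (1 - t ^ 2))

theorem rr_pos {t : ℝ} (h0 : 0 ≤ t) (h1 : t < 1) : 0 < rr t := by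
  unfold rr
  have h2 : 0 < 1 - t := by linarith
  have h3 : 0 < 1 - t + t ^ 2 := by nlinarith [sq_nonneg t]
  positivity

theorem cont_phi {b : ℝ} (hb : b < 1) :
    ContinuousOn (fun t => √3 * cfun t - chi t) (Icc 0 b) := by
  have h1 : ContinuousOn rr (Icc 0 b) := by
    unfold rr
    apply ContinuousOn.div (by fun_prop) (by fun_prop)
    intro t ht
    have h2 : 0 < 1 - t := by linarith [ht.2]
    have h3 : 0 < 1 - t + t ^ 2 := by nlinarith [sq_nonneg t]
    positivity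
  have h2 : ContinuousOn cfun (Icc 0 b) := by
    unfold cfun
    apply ContinuousOn.mul continuousOn_const
    exact h1.log fun t ht => (rr_pos ht.1 (by linarith [ht.2])).ne'
  have h3 : ContinuousOn chi (Icc 0 b) := by
    unfold chi
    apply Continuous.comp_continuousOn continuous_arctan
    apply ContinuousOn.div (by fun_prop) (by fun_prop)
    intro t ht
    have : 0 < 1 - t ^ 2 := by nlinarith [ht.1, ht.2]
    exact this.ne'
  exact (continuousOn_const.mul h2).sub h3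

/-- existence of the parameter -/
theorem exists_t {q : ℝ} (hq : 0 < q) : ∃ t, 0 < t ∧ t < 1 ∧ √3 * cfun t - chi t = q := by
  have h3 : (0 : ℝ) < √3 := by positivity
  have h33 : √3 * √3 = 3 := Real.mul_self_sqrt (by norm_num)
  obtain ⟨E, hE⟩ : ∃ E, E = exp (√3 * (q + π / 2)) := ⟨_, rfl⟩
  have hE1 : 1 < E := by
    rw [hE]
    apply Real.one_lt_exp_iff.2
    have := Real.pi_pos
    positivity
  obtain ⟨b, hb⟩ : ∃ b, b = (E - 1) / (E + 1) := ⟨_, rfl⟩
  have hE0 : 0 < E + 1 := by linarith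
  have hb0 : 0 < b := by rw [hb]; exact div_pos (by linarith) hE0
  have hb1 : b < 1 := by rw [hb, div_lt_one hE0]; linarith
  have hbE : (1 + b) / (1 - b) = E := by
    rw [hb]
    field_simp
    ring
  have hf0 : √3 * cfun 0 - chi 0 = 0 := by
    unfold cfun rr chi
    simp
  have hf1 : q ≤ √3 * cfun b - chi b := by
    have h1 : E ^ 2 ≤ rr b := by
      rw [← hbE]
      unfold rr
      have h2 : 0 < 1 - b := by linarith
      have h4 : 0 < 1 - b + b ^ 2 := by nlinarith [sq_nonneg b]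
      rw [div_pow, div_le_div_iff₀ (by positivity) (by positivity)]
      have h5 : 0 ≤ (1 + b) ^ 2 * (1 - b) ^ 2 := by positivity
      nlinarith [mul_nonneg h5 hb0.le]
    have h2 : 2 * (√3 * (q + π / 2)) ≤ log (rr b) := by
      have h4 : log (E ^ 2) = 2 * (√3 * (q + π / 2)) := by
        rw [Real.log_pow, hE, Real.log_exp]; norm_num
      rw [← h4]
      exact Real.log_le_log (by positivity) h1
    have h4 : q + π / 2 ≤ √3 * cfun b := by
      unfold cfun
      have h6 := mul_le_mul_of_nonneg_left h2 h3.le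
      have h7 : √3 * (2 * (√3 * (q + π / 2))) = 6 * (q + π / 2) := by
        linear_combination (2 * (q + π / 2)) * h33
      linarith
    have h5 : chi b < π / 2 := Real.arctan_lt_pi_div_two _
    linarith
  obtain ⟨t, ht, hft⟩ := intermediate_value_Icc hb0.le (cont_phi hb1)
    (show q ∈ Icc (√3 * cfun 0 - chi 0) (√3 * cfun b - chi b) by
      rw [hf0]; exact ⟨hq.le, hf1⟩)
  simp only at hft
  refine ⟨t, ?_, by linarith [ht.2], hft⟩
  rcases eq_or_lt_of_le ht.1 with h | h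
  · rw [← h, hf0] at hft; linarith
  · exact h

theorem exp_six {t : ℝ} (h0 : 0 ≤ t) (h1 : t < 1) : exp (3 * cfun t) ^ 2 = rr t := by
  rw [← Real.exp_nat_mul]
  unfold cfun
  have : ((2 : ℕ) : ℝ) * (3 * (1 / 6 * log (rr t))) = log (rr t) := by push_cast; ring
  rw [this, Real.exp_log (rr_pos h0 h1)]

theorem par_of {q t : ℝ} (h0 : 0 < t) (h1 : t < 1) (h : √3 * cfun t - chi t = q) :
    Par q (cfun t) t := by
  have h2 : 0 < 1 - t := by linarith
  have h3 : 0 < 1 - t + t ^ 2 := by nlinarith [sq_nonneg t]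
  have h4 : 0 < 1 + t + t ^ 2 := by positivity
  have h5 : 0 < 1 - t ^ 2 := by nlinarith
  have h33 : √3 ^ 2 = 3 := Real.sq_sqrt (by norm_num)
  have hc : 0 < cfun t := by
    unfold cfun
    have h6 : 1 < rr t := by
      unfold rr
      rw [one_lt_div (by positivity)]
      nlinarith [mul_pos h0 h0, mul_pos h0 h2, mul_pos (mul_pos h0 h0) h0]
    have := Real.log_pos h6
    positivity
  obtain ⟨D, hD⟩ : ∃ D, D = √((1 + t + t ^ 2) * (1 - t + t ^ 2)) := ⟨_, rfl⟩
  have hD0 : 0 < D := by rw [hD]; exact Real.sqrt_pos.2 (mul_pos h4 h3)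
  have hD2 : D ^ 2 = (1 + t + t ^ 2) * (1 - t + t ^ 2) := by
    rw [hD]; exact Real.sq_sqrt (mul_pos h4 h3).le
  have hsq : √(1 + (√3 * t / (1 - t ^ 2)) ^ 2) = D / (1 - t ^ 2) := by
    have h6 : 1 + (√3 * t / (1 - t ^ 2)) ^ 2 = (D / (1 - t ^ 2)) ^ 2 := by
      rw [div_pow, div_pow, mul_pow, h33, hD2]
      field_simp
      ring
    rw [h6, Real.sqrt_sq (by positivity)]
  have hcos : cos (chi t) = (1 - t ^ 2) / D := by
    unfold chi
    rw [Real.cos_arctan, hsq, one_div_div]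
  have hsin : sin (chi t) = √3 * t / D := by
    unfold chi
    rw [Real.sin_arctan, hsq]
    field_simp
  have hexp : (1 - t) * exp (3 * cfun t) * D = (1 + t) * (1 + t + t ^ 2) := by
    have h6 : ((1 - t) * exp (3 * cfun t) * D) ^ 2 = ((1 + t) * (1 + t + t ^ 2)) ^ 2 := by
      rw [mul_pow, mul_pow, exp_six h0.le h1, hD2]
      unfold rr
      field_simp
    have h7 : 0 ≤ (1 - t) * exp (3 * cfun t) * D := by positivity
    have h8 : 0 ≤ (1 + t) * (1 + t + t ^ 2) := by positivity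
    exact (pow_left_inj₀ h7 h8 (by norm_num)).1 h6
  have hchi : √3 * cfun t - q = chi t := by linarith
  refine ⟨hc, h0, ?_, ?_⟩
  · rw [hchi, hcos, mul_div_assoc', div_eq_iff hD0.ne']
    linear_combination (-(1 - t ^ 2)) * hexp
  · rw [hchi, hsin, mul_div_assoc', div_eq_iff hD0.ne']
    linear_combination (-(√3 * t)) * hexp

theorem arctan_le_self' {x : ℝ} (hx : 0 ≤ x) : arctan x ≤ x := by
  rcases eq_or_lt_of_le hx with h | h
  · rw [← h, Real.arctan_zero]
  · have h1 : arctan x < π / 2 := Real.arctan_lt_pi_div_two x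
    have h2 : 0 < arctan x := Real.arctan_pos.2 h
    have h3 := Real.lt_tan h2 h1
    rw [Real.tan_arctan] at h3
    exact h3.le

theorem sqrt3_bounds : (1.73 : ℝ) < √3 ∧ √3 < 1.7321 := by
  constructor
  · rw [Real.lt_sqrt (by norm_num)]; norm_num
  · rw [Real.sqrt_lt' (by norm_num)]; norm_num

theorem exp_36 : (36 : ℝ) ≤ exp (18 / 5) := by
  have h1 : exp (18 / 5) ^ 5 = exp 1 ^ 18 := by
    rw [← Real.exp_nat_mul, ← Real.exp_nat_mul]
    norm_num
  have h2 : (2.718 : ℝ) < exp 1 := lt_trans (by norm_num) Real.exp_one_gt_d9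
  have h3 : (36 : ℝ) ^ 5 ≤ exp (18 / 5) ^ 5 := by
    rw [h1]
    calc (36 : ℝ) ^ 5 ≤ 2.718 ^ 18 := by norm_num
      _ ≤ exp 1 ^ 18 := pow_le_pow_left₀ (by norm_num) h2.le 18
  exact (pow_le_pow_iff_left₀ (by norm_num) (exp_pos _).le (by norm_num)).1 h3

theorem exp_12 : (12 : ℝ) ≤ exp (5 / 2) := by
  have h1 : exp (5 / 2) ^ 2 = exp 1 ^ 5 := by
    rw [← Real.exp_nat_mul, ← Real.exp_nat_mul]
    norm_num
  have h2 : (2.718 : ℝ) < exp 1 := lt_trans (by norm_num) Real.exp_one_gt_d9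
  have h3 : (12 : ℝ) ^ 2 ≤ exp (5 / 2) ^ 2 := by
    rw [h1]
    calc (12 : ℝ) ^ 2 ≤ 2.718 ^ 5 := by norm_num
      _ ≤ exp 1 ^ 5 := pow_le_pow_left₀ (by norm_num) h2.le 5
  exact (pow_le_pow_iff_left₀ (by norm_num) (exp_pos _).le (by norm_num)).1 h3

/-- `(1 - t) e^{3c} ≤ 2 √3` -/
theorem one_sub_le {t : ℝ} (h0 : 0 < t) (h1 : t < 1) : (1 - t) * exp (3 * cfun t) ≤ 2 * √3 := by
  have h2 : 0 < 1 - t := by linarith
  have h3 : 0 < 1 - t + t ^ 2 := by nlinarith [sq_nonneg t]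
  have h33 : √3 ^ 2 = 3 := Real.sq_sqrt (by norm_num)
  have h4 : ((1 - t) * exp (3 * cfun t)) ^ 2 ≤ (2 * √3) ^ 2 := by
    rw [mul_pow, mul_pow, h33, exp_six h0.le h1]
    unfold rr
    have h5 : (1 - t) ^ 2 * ((1 + t + t ^ 2) * (1 + t) ^ 2 / ((1 - t + t ^ 2) * (1 - t) ^ 2)) =
        (1 + t + t ^ 2) * (1 + t) ^ 2 / (1 - t + t ^ 2) := by
      field_simp
    rw [h5, div_le_iff₀ h3]
    have h6 : 1 + t + t ^ 2 ≤ 3 * (1 - t + t ^ 2) := by nlinarith [sq_nonneg (1 - t)]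
    have h7 : (1 + t) ^ 2 ≤ 2 ^ 2 := pow_le_pow_left₀ (by linarith) (by linarith) 2
    calc (1 + t + t ^ 2) * (1 + t) ^ 2 ≤ (3 * (1 - t + t ^ 2)) * 2 ^ 2 :=
          mul_le_mul h6 h7 (by positivity) (by positivity)
      _ = 2 ^ 2 * 3 * (1 - t + t ^ 2) := by ring
  exact (pow_le_pow_iff_left₀ (by positivity) (by positivity) (by norm_num)).1 h4

theorem ex1_stmt : Ex1Stmt := by
  intro j hj
  have hj1 : (1 : ℝ) ≤ j := by exact_mod_cast hj
  have hpi1 := Real.pi_gt_d2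
  have hpi2 := Real.pi_lt_d2
  obtain ⟨hs1, hs2⟩ := sqrt3_bounds
  have h33 : √3 * √3 = 3 := Real.mul_self_sqrt (by norm_num)
  obtain ⟨q, hq⟩ : ∃ q, q = 2 * π * j / 3 := ⟨_, rfl⟩
  have hq0 : 0 < q := by rw [hq]; positivity
  rw [← hq]
  obtain ⟨t, ht0, ht1, ht⟩ := exists_t hq0
  have hpar := par_of ht0 ht1 ht
  have hc0 : 0 < cfun t := hpar.1
  obtain ⟨c, hc⟩ : ∃ c, c = cfun t := ⟨_, rfl⟩
  refine ⟨c, t, by rw [hc]; exact hpar, ?_⟩
  rw [← hc] at hc0
  obtain ⟨w, hw⟩ : ∃ w, w = √3 * c := ⟨_, rfl⟩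
  rw [← hc, ← hw] at ht
  have h2 : 0 < 1 - t := by linarith
  have h5 : 0 < 1 - t ^ 2 := by nlinarith
  have hchi0 : 0 < chi t := Real.arctan_pos.2 (by positivity)
  have hchi1 : chi t < π / 2 := Real.arctan_lt_pi_div_two _
  obtain ⟨y, hy⟩ : ∃ y, y = (1 - t ^ 2) / (√3 * t) := ⟨_, rfl⟩
  have hy0 : 0 < y := by rw [hy]; positivity
  have hchi2 : π / 2 - y ≤ chi t := by
    have h6 : chi t = π / 2 - arctan y := by
      rw [← Real.arctan_inv_of_pos hy0, hy, inv_div]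
      rfl
    rw [h6]
    have := arctan_le_self' hy0.le
    linarith
  -- `3 c = √3 w`
  have h3c : 3 * c = √3 * w := by rw [hw]; linear_combination (-c) * h33
  have hone := one_sub_le ht0 ht1
  rw [← hc, h3c] at hone
  have hsq : (18 / 5 : ℝ) * j ≤ √3 * q := by
    rw [hq]
    have h6 : (18 / 5 : ℝ) ≤ √3 * (2 * π / 3) := by
      nlinarith [Real.pi_pos]
    calc (18 / 5 : ℝ) * j ≤ (√3 * (2 * π / 3)) * j := mul_le_mul_of_nonneg_right h6 (by linarith)
      _ = √3 * (2 * π * j / 3) := by ring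
  have h36 : (36 : ℝ) ^ j ≤ exp (√3 * q) := by
    calc (36 : ℝ) ^ j ≤ exp (18 / 5) ^ j := pow_le_pow_left₀ (by norm_num) exp_36 j
      _ = exp ((18 / 5 : ℝ) * j) := by rw [← Real.exp_nat_mul]; congr 1; ring
      _ ≤ exp (√3 * q) := Real.exp_le_exp.2 hsq
  have h36' : (36 : ℝ) ≤ 36 ^ j := by
    calc (36 : ℝ) = 36 ^ 1 := by norm_num
      _ ≤ 36 ^ j := pow_le_pow_right₀ (by norm_num) hj
  -- step 1
  have ht9 : 9 / 10 ≤ t := by
    have h6 : (36 : ℝ) ≤ exp (√3 * w) := by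
      refine h36'.trans (h36.trans (Real.exp_le_exp.2 ?_))
      nlinarith
    nlinarith
  -- step 2
  have hy1 : y ≤ 12 / 100 := by
    rw [hy, div_le_iff₀ (by positivity)]
    have h6 : (36 : ℝ) ≤ exp (√3 * w) := by
      refine h36'.trans (h36.trans (Real.exp_le_exp.2 ?_))
      nlinarith
    have h7 : 1 - t ≤ 97 / 1000 := by nlinarith
    have h8 : 1 - t ^ 2 = (1 - t) * (1 + t) := by ring
    rw [h8]
    nlinarith
  -- step 3
  have hw1 : q + π / 2 - 12 / 100 ≤ w := by linarith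
  have hw2 : w ≤ q + π / 2 := by linarith
  have hone2 : (1 - t) * (12 * 36 ^ j) ≤ 2 * √3 := by
    have h6 : (12 : ℝ) * 36 ^ j ≤ exp (√3 * w) := by
      have h7 : (5 / 2 : ℝ) + √3 * q ≤ √3 * w := by
        have h8 : (5 / 2 : ℝ) ≤ √3 * (π / 2 - 12 / 100) := by nlinarith
        nlinarith
      calc (12 : ℝ) * 36 ^ j ≤ exp (5 / 2) * exp (√3 * q) :=
            mul_le_mul exp_12 h36 (by positivity) (exp_pos _).le
        _ = exp (5 / 2 + √3 * q) := (Real.exp_add _ _).symm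
        _ ≤ exp (√3 * w) := Real.exp_le_exp.2 h7
    exact (mul_le_mul_of_nonneg_left h6 h2.le).trans hone
  have hw0 : 0 < w := by rw [hw]; positivity
  constructor
  · rw [← hw]
    have h6 : w ≤ w / t := by
      rw [le_div_iff₀ ht0]; nlinarith
    linarith
  · rw [← hw, div_le_iff₀ ht0]
    -- `w ≤ (r + ε) t`
    have h6 : (18 : ℝ) * j ≤ 18 ^ j := by
      have h7 := one_add_mul_le_pow (show (-2 : ℝ) ≤ 17 by norm_num) j
      have h8 : (1 : ℝ) + 17 = 18 := by norm_num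
      rw [h8] at h7
      have : ∀ i : ℕ, 1 ≤ i → (18 : ℝ) * i ≤ 18 ^ i := by
        intro i hi
        induction i, hi using Nat.le_induction with
        | base => norm_num
        | succ i hi ih =>
          have hi1 : (1 : ℝ) ≤ i := by exact_mod_cast hi
          rw [pow_succ]
          push_cast
          nlinarith
      exact this j hj
    have h7 : (36 : ℝ) ^ j = 18 ^ j * 2 ^ j := by rw [← mul_pow]; norm_num
    have h8 : q + π / 2 ≤ 3.68 * j := by
      rw [hq]; nlinarith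
    have h2j : (0 : ℝ) < 2 ^ j := by positivity
    have h9 : (1 / 5 : ℝ) * (1 / 2) ^ j = 1 / (5 * 2 ^ j) := by
      rw [one_div_pow]; field_simp
    rw [h9]
    -- (1 - t) * 36^j ≤ 0.289
    have h10 : (1 - t) * 36 ^ j ≤ 29 / 100 := by nlinarith
    -- goal: w ≤ (q + π/2 + 1/(5 2^j)) t
    have h11 : (q + π / 2) * (1 - t) ≤ 1 / (5 * 2 ^ j) * t := by
      have h12 : (q + π / 2) * (1 - t) ≤ 3.68 * j * (1 - t) :=
        mul_le_mul_of_nonneg_right h8 h2.le
      have h13 : 3.68 * (j : ℝ) * (1 - t) * (5 * 2 ^ j) ≤ t := by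
        have h14 : (j : ℝ) * 2 ^ j * 18 ≤ 36 ^ j := by
          rw [h7]
          nlinarith
        have h15 : (j : ℝ) * 2 ^ j * (1 - t) * 18 ≤ 29 / 100 := by
          calc (j : ℝ) * 2 ^ j * (1 - t) * 18 = (1 - t) * ((j : ℝ) * 2 ^ j * 18) := by ring
            _ ≤ (1 - t) * 36 ^ j := mul_le_mul_of_nonneg_left h14 h2.le
            _ ≤ _ := h10
        have h16 : 3.68 * (j : ℝ) * (1 - t) * (5 * 2 ^ j) = 18.4 * ((j : ℝ) * 2 ^ j * (1 - t)) := by
          ring
        rw [h16]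
        linarith
      have h17 : 1 / (5 * 2 ^ j) * t = t / (5 * 2 ^ j) := by ring
      rw [h17, le_div_iff₀ (by positivity)]
      have h18 : (q + π / 2) * (1 - t) * (5 * 2 ^ j) ≤ 3.68 * j * (1 - t) * (5 * 2 ^ j) :=
        mul_le_mul_of_nonneg_right h12 (by positivity)
      linarith
    linarith

end Pool.Agent.R204.ST
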