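import Mathlib
import Pool.Agent.R204.ST.Stm

open MeasureTheory Real Set

namespace Pool.Agent.R204.ST

noncomputable def cx2 (t : ℝ) : ℝ :=
  1 / 6 * log ((1 + t + t ^ 2) * (1 + t) ^ 2 / ((1 - t + t ^ 2) * (t - 1) ^ 2))

noncomputable def px2 (t : ℝ) : ℝ := arctan (√3 * t / (t ^ 2 - 1))

lemma cx2_arg_pos {t : ℝ} (ht : 1 < t) :
    0 < (1 + t + t ^ 2) * (1 + t) ^ 2 / ((1 - t + t ^ 2) * (t - 1) ^ 2) := by
  have h1 : 0 < t - 1 := by linarith
  have h2 : 0 < 1 - t + t ^ 2 := by nlinarith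
  positivity

lemma cx2_exp {t : ℝ} (ht : 1 < t) :
    exp (3 * cx2 t) ^ 2 =
      (1 + t + t ^ 2) * (1 + t) ^ 2 / ((1 - t + t ^ 2) * (t - 1) ^ 2) := by
  rw [← exp_nat_mul]
  have : ((2 : ℕ) : ℝ) * (3 * cx2 t) =
      log ((1 + t + t ^ 2) * (1 + t) ^ 2 / ((1 - t + t ^ 2) * (t - 1) ^ 2)) := by
    unfold cx2; push_cast; ring
  rw [this, exp_log (cx2_arg_pos ht)]

/-- lower bound -/
lemma cx2_lower {t : ℝ} (ht : 1 < t) : (t + 1) / (t - 1) ≤ exp (3 * cx2 t) := by
  have h1 : 0 < t - 1 := by linarith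
  have h2 : 0 < 1 - t + t ^ 2 := by nlinarith
  have h0 : 0 ≤ exp (3 * cx2 t) := (exp_pos _).le
  apply le_of_sq_le_sq _ h0
  rw [cx2_exp ht, div_pow, div_le_div_iff₀ (by positivity) (by positivity)]
  have : (1 - t + t ^ 2) ≤ (1 + t + t ^ 2) := by linarith
  have hp : 0 ≤ (t + 1) ^ 2 * (t - 1) ^ 2 := by positivity
  nlinarith [mul_le_mul_of_nonneg_left this hp]

lemma cx2_upper {t : ℝ} (ht : 1 < t) : exp (3 * cx2 t) ≤ √3 * ((t + 1) / (t - 1)) := by
  have h1 : 0 < t - 1 := by linarith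
  have h2 : 0 < 1 - t + t ^ 2 := by nlinarith
  have h3 : (√3 : ℝ) ^ 2 = 3 := Real.sq_sqrt (by norm_num)
  apply le_of_sq_le_sq _ (by positivity)
  rw [cx2_exp ht, mul_pow, h3, div_pow, ← mul_div_assoc,
    div_le_div_iff₀ (by positivity) (by positivity)]
  have : (1 + t + t ^ 2) ≤ 3 * (1 - t + t ^ 2) := by nlinarith [sq_nonneg (t - 1)]
  have hp : 0 ≤ (t + 1) ^ 2 * (t - 1) ^ 2 := by positivity
  nlinarith [mul_le_mul_of_nonneg_left this hp]

lemma cx2_pos {t : ℝ} (ht : 1 < t) : 0 < cx2 t := by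
  have h1 : 0 < t - 1 := by linarith
  have h : 1 < exp (3 * cx2 t) := lt_of_lt_of_le (by rw [lt_div_iff₀ h1]; linarith) (cx2_lower ht)
  have := Real.one_lt_exp_iff.1 h
  linarith

lemma par_of2 {q t : ℝ} (ht : 1 < t) (h : √3 * cx2 t + px2 t = q) : Par q (cx2 t) t := by
  have h1 : 0 < t - 1 := by linarith
  have h2 : 0 < 1 - t + t ^ 2 := by nlinarith
  have h5 : 0 < t ^ 2 - 1 := by nlinarith
  have h3 : (√3 : ℝ) ^ 2 = 3 := Real.sq_sqrt (by norm_num)
  set D : ℝ := √((1 + t + t ^ 2) * (1 - t + t ^ 2)) with hD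
  have hDpos : 0 < D := Real.sqrt_pos.2 (by positivity)
  have hD2 : D ^ 2 = (1 + t + t ^ 2) * (1 - t + t ^ 2) := Real.sq_sqrt (by positivity)
  have hsq : √(1 + (√3 * t / (t ^ 2 - 1)) ^ 2) = D / (t ^ 2 - 1) := by
    rw [Real.sqrt_eq_iff_eq_sq (by positivity) (by positivity), div_pow, div_pow, hD2, mul_pow, h3]
    field_simp
    ring
  have hang : √3 * cx2 t - q = - px2 t := by linarith
  have hcos : cos (√3 * cx2 t - q) = (t ^ 2 - 1) / D := by
    rw [hang, cos_neg, px2, cos_arctan, hsq, one_div_div]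
  have hsin : sin (√3 * cx2 t - q) = -(√3 * t / D) := by
    rw [hang, sin_neg, px2, sin_arctan, hsq]
    field_simp
  have hE : exp (3 * cx2 t) * (t - 1) * D = (1 + t + t ^ 2) * (1 + t) := by
    have hpos : 0 ≤ exp (3 * cx2 t) * (t - 1) * D := by positivity
    have hpos2 : 0 ≤ (1 + t + t ^ 2) * (1 + t) := by positivity
    rw [← sq_eq_sq₀ hpos hpos2, mul_pow, mul_pow, cx2_exp ht, hD2]
    field_simp
  refine ⟨cx2_pos ht, by linarith, ?_, ?_⟩
  · rw [hcos, ← hE]
    field_simp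
    ring
  · rw [hsin, ← hE]
    field_simp
    ring

lemma cx2_cont {t0 : ℝ} (h0 : 1 < t0) :
    ContinuousOn (fun t => √3 * cx2 t + px2 t) (Icc t0 3) := by
  apply ContinuousOn.add
  · apply ContinuousOn.mul continuousOn_const
    unfold cx2
    apply ContinuousOn.mul continuousOn_const
    apply ContinuousOn.log
    · apply ContinuousOn.div
      · fun_prop
      · fun_prop
      · intro t ht
        have h1 : 0 < t - 1 := by linarith [ht.1]
        have h2 : 0 < 1 - t + t ^ 2 := by nlinarith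
        positivity
    · intro t ht
      exact (cx2_arg_pos (lt_of_lt_of_le h0 ht.1)).ne'
  · unfold px2
    apply Real.continuous_arctan.comp_continuousOn
    apply ContinuousOn.div
    · fun_prop
    · fun_prop
    · intro t ht
      have h1 : 1 < t := by linarith [ht.1]
      have : 0 < t ^ 2 - 1 := by nlinarith
      exact this.ne'

lemma sqrt3_lo : (1.732 : ℝ) < √3 := by
  rw [Real.lt_sqrt (by norm_num)]; norm_num

lemma sqrt3_hi : √3 < (1.7321 : ℝ) := by
  rw [Real.sqrt_lt' (by norm_num)]; norm_num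

lemma arctan_le_self2 {x : ℝ} (hx : 0 ≤ x) : arctan x ≤ x := by
  have h := Real.le_tan (Real.arctan_nonneg.2 hx) (Real.arctan_lt_pi_div_two x)
  rwa [Real.tan_arctan] at h

lemma at_three : √3 * cx2 3 + px2 3 ≤ 2 := by
  have hlog : cx2 3 ≤ 1 / 6 * (3 * log 2) := by
    unfold cx2
    apply mul_le_mul_of_nonneg_left _ (by norm_num)
    rw [← Real.log_rpow (by norm_num)]
    apply Real.log_le_log (by norm_num)
    norm_num
  have hl2 := Real.log_two_lt_d9
  have h3 := sqrt3_hi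
  have h3' := sqrt3_lo
  have harc : px2 3 ≤ √3 * 3 / (3 ^ 2 - 1) := by
    unfold px2
    apply arctan_le_self2
    positivity
  have hc : cx2 3 ≤ 0.35 := by linarith
  have : √3 * cx2 3 ≤ 1.7321 * 0.35 := by
    have hcp : 0 < cx2 3 := cx2_pos (by norm_num)
    exact mul_le_mul h3.le hc hcp.le (by norm_num)
  have : √3 * 3 / (3 ^ 2 - 1) ≤ 0.7 := by
    rw [div_le_iff₀ (by norm_num)]; linarith
  linarith

lemma exists_t2 {q : ℝ} (hq : 2 ≤ q) :
    ∃ t : ℝ, 1 < t ∧ t ≤ 3 ∧ √3 * cx2 t + px2 t = q := by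
  have h3 := sqrt3_lo
  have hsq3 : (√3 : ℝ) * √3 = 3 := Real.mul_self_sqrt (by norm_num)
  have hX : 2 < exp (√3 * q) := by
    have : √3 * q + 1 ≤ exp (√3 * q) := Real.add_one_le_exp _
    nlinarith
  set X := exp (√3 * q) with hXd
  set t0 : ℝ := (X + 1) / (X - 1) with ht0
  have hX1 : 0 < X - 1 := by linarith
  have h10 : 1 < t0 := by rw [ht0, lt_div_iff₀ hX1]; linarith
  have h03 : t0 ≤ 3 := by rw [ht0, div_le_iff₀ hX1]; linarith
  have hratio : (t0 + 1) / (t0 - 1) = X := by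
    rw [ht0]
    field_simp
    ring
  have hlow : q ≤ √3 * cx2 t0 + px2 t0 := by
    have h := cx2_lower h10
    rw [hratio, hXd, Real.exp_le_exp] at h
    have hp : 0 ≤ px2 t0 := by
      unfold px2
      apply Real.arctan_nonneg.2
      have : 0 < t0 ^ 2 - 1 := by nlinarith
      positivity
    have : √3 * q ≤ √3 * (√3 * cx2 t0) := by
      calc √3 * q ≤ 3 * cx2 t0 := h
        _ = √3 * (√3 * cx2 t0) := by rw [← mul_assoc, hsq3]
    have := le_of_mul_le_mul_left this (by linarith)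
    linarith
  have hhigh : √3 * cx2 3 + px2 3 ≤ q := le_trans at_three hq
  have hivt := intermediate_value_Icc' h03 (cx2_cont h10)
  obtain ⟨t, ht, hteq⟩ := hivt ⟨hhigh, hlow⟩
  exact ⟨t, lt_of_lt_of_le h10 ht.1, ht.2, hteq⟩

lemma px2_eq {t : ℝ} (ht : 1 < t) : px2 t = π / 2 - arctan ((t ^ 2 - 1) / (√3 * t)) := by
  have h5 : 0 < t ^ 2 - 1 := by nlinarith
  have hpos : 0 < (t ^ 2 - 1) / (√3 * t) := by positivity
  have := Real.arctan_inv_of_pos hpos
  rw [← this, inv_div, px2]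

lemma c_bounds {q t : ℝ} (ht : 1 < t) (h : √3 * cx2 t + px2 t = q) :
    q - π / 2 ≤ √3 * cx2 t ∧ √3 * cx2 t ≤ q - π / 2 + (t ^ 2 - 1) / (√3 * t) := by
  have h5 : 0 < t ^ 2 - 1 := by nlinarith
  have hpos : 0 < (t ^ 2 - 1) / (√3 * t) := by positivity
  rw [px2_eq ht] at h
  have h1 := arctan_le_self2 hpos.le
  have h2 := Real.arctan_nonneg.2 hpos.le
  constructor <;> linarith

theorem ex2_stmt : Ex2Stmt := by
  have hpi := Real.pi_gt_d6
  have hpi' := Real.pi_lt_d6
  have h3 := sqrt3_lo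
  have h3' := sqrt3_hi
  have hsq3 : (√3 : ℝ) * √3 = 3 := Real.mul_self_sqrt (by norm_num)
  refine ⟨?_, ?_⟩
  · obtain ⟨t, ht1, ht3, hteq⟩ := exists_t2 (q := 2 * π * (1 : ℕ) / 3) (by push_cast; linarith)
    refine ⟨cx2 t, t, par_of2 ht1 hteq, ?_⟩
    have hb := (c_bounds ht1 hteq).2
    have ht0 : 0 < t := by linarith
    rw [div_le_iff₀ ht0]
    refine le_trans hb ?_
    push_cast
    have hinv : (t ^ 2 - 1) / (√3 * t) ≤ (t ^ 2 - 1) / (1.732 * t) := by
      have h5 : 0 < t ^ 2 - 1 := by nlinarith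
      gcongr
    have hkey : (t ^ 2 - 1) / (1.732 * t) ≤ 7 / 10 * t - 0.5236 := by
      rw [div_le_iff₀ (by positivity)]
      nlinarith [sq_nonneg (t - 2.1)]
    linarith
  · intro j hj
    have hj' : (2 : ℝ) ≤ j := by exact_mod_cast hj
    have hq : (2 : ℝ) ≤ 2 * π * j / 3 := by nlinarith
    obtain ⟨t, ht1, ht3, hteq⟩ := exists_t2 hq
    refine ⟨cx2 t, t, par_of2 ht1 hteq, ?_⟩
    obtain ⟨hlo, hhi⟩ := c_bounds ht1 hteq
    set r : ℝ := 2 * π * j / 3 - π / 2 with hr
    have hr2 : 2.617 ≤ r := by rw [hr]; nlinarith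
    have ht0 : 0 < t := by linarith
    have h1 : 0 < t - 1 := by linarith
    constructor
    · -- lower
      rw [le_div_iff₀ ht0]
      refine le_trans ?_ hlo
      have hkey : r * (t - 1) ≤ 3 / 10 := by
        have hE : exp (√3 * r) ≤ √3 * ((t + 1) / (t - 1)) := by
          refine le_trans ?_ (cx2_upper ht1)
          rw [Real.exp_le_exp]
          calc √3 * r ≤ √3 * (√3 * cx2 t) := by gcongr
            _ = 3 * cx2 t := by rw [← mul_assoc, hsq3]
        have hE2 : exp (√3 * r) * (t - 1) ≤ √3 * 4 := by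
          calc exp (√3 * r) * (t - 1) ≤ √3 * ((t + 1) / (t - 1)) * (t - 1) := by gcongr
            _ = √3 * (t + 1) := by field_simp
            _ ≤ √3 * 4 := by gcongr; linarith
        have hx : 4.5 ≤ √3 * r := by nlinarith
        have he : 60 ≤ exp 4.5 := by
          have e1 : exp 4.5 = exp 1 ^ 4 * exp 0.5 := by
            rw [← Real.exp_nat_mul, ← Real.exp_add]; norm_num
          have e2 := Real.exp_one_gt_d9
          have e3 : (1.5 : ℝ) ≤ exp 0.5 := by
            have := Real.add_one_le_exp (0.5 : ℝ); linarith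
          have e4 : (2.7 : ℝ) ^ 4 ≤ exp 1 ^ 4 := by gcongr; linarith
          rw [e1]
          calc (60 : ℝ) ≤ 2.7 ^ 4 * 1.5 := by norm_num
            _ ≤ exp 1 ^ 4 * exp 0.5 := by gcongr
        have hex : 40 / 3 * (√3 * r) ≤ exp (√3 * r) := by
          have e1 : exp (√3 * r) = exp 4.5 * exp (√3 * r - 4.5) := by
            rw [← Real.exp_add]; ring_nf
          have e2 := Real.add_one_le_exp (√3 * r - 4.5)
          rw [e1]
          have : 60 * (√3 * r - 4.5 + 1) ≤ exp 4.5 * exp (√3 * r - 4.5) := by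
            apply mul_le_mul he e2 (by linarith) (by positivity)
          linarith
        have : 40 / 3 * (√3 * r) * (t - 1) ≤ √3 * 4 :=
          le_trans (mul_le_mul_of_nonneg_right hex h1.le) hE2
        have h40 : √3 * (40 / 3 * r * (t - 1)) ≤ √3 * 4 := by
          calc √3 * (40 / 3 * r * (t - 1)) = 40 / 3 * (√3 * r) * (t - 1) := by ring
            _ ≤ √3 * 4 := this
        have := le_of_mul_le_mul_left h40 (by linarith)
        linarith
      nlinarith
    · rw [div_le_iff₀ ht0]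
      refine le_trans hhi ?_
      have : (t ^ 2 - 1) / (√3 * t) ≤ r * (t - 1) := by
        rw [div_le_iff₀ (by positivity)]
        have hA : t ^ 2 - 1 = (t - 1) * (t + 1) := by ring
        rw [hA]
        have hB : t + 1 ≤ r * (√3 * t) := by
          have : 2 * t ≤ r * √3 * t := by
            apply mul_le_mul_of_nonneg_right _ ht0.le
            nlinarith
          nlinarith
        nlinarith [mul_le_mul_of_nonneg_left hB h1.le]
      nlinarith

end Pool.Agent.R204.ST
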