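import Mathlib
import Pool.Agent.R204.ST.Stm

/-! ST-2 (MP_1de434_an): Green formula from the divergence theorem. -/

open MeasureTheory Real Set

namespace Pool.Agent.R204.ST

theorem green_stmt : GreenStmt := by
  intro hdiv σ u v hu hv
  obtain ⟨hu1, hu2, hu3⟩ := hu
  have hu' : ContDiff ℝ 2 u := hu1.of_le le_top
  have hv' : ContDiff ℝ 1 v := hv.of_le le_top
  have hd : ∀ w : ℝ × ℝ, ContDiff ℝ 1 (fun q => fderiv ℝ u q w) := fun w =>
    (hu'.fderiv_right (m := 1) (by norm_num)).clm_apply contDiff_const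
  have hA : ContDiff ℝ 1 (fun q => fderiv ℝ u q (1, 0) * v q) := (hd _).mul hv'
  have hB : ContDiff ℝ 1 (fun q => fderiv ℝ u q (0, 1) * v q) := (hd _).mul hv'
  have h := hdiv _ _ hA hB
  have hprod : ∀ (w : ℝ × ℝ) (p : ℝ × ℝ), fderiv ℝ (fun q => fderiv ℝ u q w * v q) p w =
      fderiv ℝ (fun q => fderiv ℝ u q w) p w * v p + fderiv ℝ u p w * fderiv ℝ v p w := by
    intro w p
    have h1 : DifferentiableAt ℝ (fun q => fderiv ℝ u q w) p :=
      (hd w).differentiable (by norm_num) p
    have h2 : DifferentiableAt ℝ v p := hv'.differentiable (by norm_num) p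
    rw [fderiv_fun_mul h1 h2]
    simp only [ContinuousLinearMap.add_apply, ContinuousLinearMap.smul_apply, smul_eq_mul]
    ring
  unfold E2 B2
  have h1 : ∫ p in T, (fderiv ℝ (fun q => fderiv ℝ u q (1, 0) * v q) p (1, 0) +
      fderiv ℝ (fun q => fderiv ℝ u q (0, 1) * v q) p (0, 1)) =
      ∫ p in T, fderiv ℝ u p (1, 0) * fderiv ℝ v p (1, 0)
        + fderiv ℝ u p (0, 1) * fderiv ℝ v p (0, 1) := by
    congr 1
    funext p
    rw [hprod, hprod]
    have := hu2 p
    linear_combination v p * this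
  rw [← h1, h, ← intervalIntegral.integral_const_mul]
  congr 1
  funext s
  rw [Finset.mul_sum]
  refine Finset.sum_congr rfl fun m _ => ?_
  have h2 := hu3 m s
  have h3 : fderiv ℝ u (side m s) (side m 0) =
      fderiv ℝ u (side m s) (1, 0) * (side m 0).1 + fderiv ℝ u (side m s) (0, 1) * (side m 0).2 := by
    have h4 : side m 0 = (side m 0).1 • ((1, 0) : ℝ × ℝ) + (side m 0).2 • ((0, 1) : ℝ × ℝ) := by
      apply Prod.ext <;> simp
    conv_lhs => rw [h4]
    rw [map_add, map_smul, map_smul]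
    simp only [smul_eq_mul]
    ring
  rw [h3] at h2
  linear_combination v (side m s) * h2

end Pool.Agent.R204.ST
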