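import Pool.Agent.R204.ST.Stm

/-! ST-3: min-max upper bound from orthogonal test functions (helper91). -/

set_option autoImplicit false

open MeasureTheory Real Set

namespace Pool.Agent.R204.ST

namespace MM

lemma T_compact : IsCompact T := by
  have hcl : IsClosed T := by
    have e : T = {p : ℝ × ℝ | p.1 ≤ 1} ∩ ({p | -p.1 + √3 * p.2 ≤ 2} ∩ {p | -p.1 - √3 * p.2 ≤ 2}) := by
      ext p; rfl
    rw [e]
    refine IsClosed.inter ?_ (IsClosed.inter ?_ ?_)
    · exact isClosed_le (by fun_prop) (by fun_prop)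
    · exact isClosed_le (by fun_prop) (by fun_prop)
    · exact isClosed_le (by fun_prop) (by fun_prop)
  refine (isCompact_Icc (a := ((-2, -3) : ℝ × ℝ)) (b := (1, 3))).of_isClosed_subset hcl ?_
  rintro ⟨x, y⟩ ⟨h1, h2, h3⟩
  simp only at h1 h2 h3
  have h4 : (1 : ℝ) ≤ √3 := by
    rw [show (1 : ℝ) = √1 by simp]
    exact Real.sqrt_le_sqrt (by norm_num)
  have hx : -2 ≤ x := by linarith
  have hy1 : y ≤ 3 := by
    by_contra hcon
    push Not at hcon
    nlinarith
  have hy2 : -3 ≤ y := by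
    by_contra hcon
    push Not at hcon
    nlinarith
  exact ⟨⟨hx, hy2⟩, ⟨h1, hy1⟩⟩

lemma side_cont (m : Fin 3) : Continuous (side m) := by
  fin_cases m
  · show Continuous fun s : ℝ => ((1 : ℝ), s)
    fun_prop
  · show Continuous fun s : ℝ => (-1 / 2 - √3 / 2 * s, √3 / 2 - s / 2)
    fun_prop
  · show Continuous fun s : ℝ => (-1 / 2 + √3 / 2 * s, -(√3 / 2) - s / 2)
    fun_prop

lemma fd_cont {u : ℝ × ℝ → ℝ} (hu : ContDiff ℝ ⊤ u) (v : ℝ × ℝ) :
    Continuous fun p => fderiv ℝ u p v :=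
  (hu.continuous_fderiv (by simp)).clm_apply continuous_const

variable {n : ℕ} {e : Fin n → ℝ × ℝ → ℝ} (he : ∀ i, ContDiff ℝ ⊤ (e i))
include he

lemma fd_sum (a : Fin n → ℝ) (p v : ℝ × ℝ) :
    fderiv ℝ (∑ i, a i • e i) p v = ∑ i, a i * fderiv ℝ (e i) p v := by
  have hd : ∀ i, DifferentiableAt ℝ (e i) p := fun i =>
    ((he i).differentiable (by simp)).differentiableAt
  rw [fderiv_sum (fun i _ => (hd i).const_smul (a i)), ContinuousLinearMap.sum_apply]
  refine Finset.sum_congr rfl fun i _ => ?_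
  rw [fderiv_const_smul (hd i)]
  rfl

lemma B2_sum (a : Fin n → ℝ) : B2 (∑ i, a i • e i) (∑ i, a i • e i) =
    ∑ i, ∑ j, a i * a j * B2 (e i) (e j) := by
  unfold B2
  have hc : ∀ i j, Continuous fun s => ∑ m : Fin 3, e i (side m s) * e j (side m s) := by
    intro i j
    refine continuous_finset_sum _ fun m _ => ?_
    exact ((he i).continuous.comp (side_cont m)).mul ((he j).continuous.comp (side_cont m))
  have e1 : ∀ s : ℝ, ∑ m : Fin 3, (∑ i, a i • e i) (side m s) * (∑ i, a i • e i) (side m s) =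
      ∑ i, ∑ j, a i * a j * ∑ m : Fin 3, e i (side m s) * e j (side m s) := by
    intro s
    have e2 : ∀ m : Fin 3, (∑ i, a i • e i) (side m s) * (∑ i, a i • e i) (side m s) =
        ∑ i, ∑ j, a i * a j * (e i (side m s) * e j (side m s)) := by
      intro m
      rw [Finset.sum_apply, Finset.sum_mul_sum]
      refine Finset.sum_congr rfl fun i _ => Finset.sum_congr rfl fun j _ => ?_
      simp only [Pi.smul_apply, smul_eq_mul]
      ring
    rw [Finset.sum_congr rfl fun m _ => e2 m, Finset.sum_comm]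
    refine Finset.sum_congr rfl fun i _ => ?_
    rw [Finset.sum_comm]
    refine Finset.sum_congr rfl fun j _ => ?_
    rw [Finset.mul_sum]
  rw [intervalIntegral.integral_congr (g := fun s =>
      ∑ i, ∑ j, a i * a j * ∑ m : Fin 3, e i (side m s) * e j (side m s)) fun s _ => e1 s]
  rw [intervalIntegral.integral_finset_sum]
  · refine Finset.sum_congr rfl fun i _ => ?_
    rw [intervalIntegral.integral_finset_sum]
    · refine Finset.sum_congr rfl fun j _ => ?_
      rw [intervalIntegral.integral_const_mul]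
    · intro j _
      exact (continuous_const.mul (hc i j)).intervalIntegrable _ _
  · intro i _
    exact (continuous_finset_sum _ fun j _ => continuous_const.mul (hc i j)).intervalIntegrable _ _

lemma E2_sum (a : Fin n → ℝ) : E2 (∑ i, a i • e i) (∑ i, a i • e i) =
    ∑ i, ∑ j, a i * a j * E2 (e i) (e j) := by
  unfold E2
  have hc : ∀ i j, Continuous fun p : ℝ × ℝ => fderiv ℝ (e i) p (1, 0) * fderiv ℝ (e j) p (1, 0)
      + fderiv ℝ (e i) p (0, 1) * fderiv ℝ (e j) p (0, 1) := fun i j =>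
    ((fd_cont (he i) _).mul (fd_cont (he j) _)).add ((fd_cont (he i) _).mul (fd_cont (he j) _))
  have hI : ∀ {g : ℝ × ℝ → ℝ}, Continuous g → IntegrableOn g T := fun hg =>
    hg.continuousOn.integrableOn_compact T_compact
  have e1 : ∀ p : ℝ × ℝ, fderiv ℝ (∑ i, a i • e i) p (1, 0) * fderiv ℝ (∑ i, a i • e i) p (1, 0)
      + fderiv ℝ (∑ i, a i • e i) p (0, 1) * fderiv ℝ (∑ i, a i • e i) p (0, 1) =
      ∑ i, ∑ j, a i * a j * (fderiv ℝ (e i) p (1, 0) * fderiv ℝ (e j) p (1, 0)
      + fderiv ℝ (e i) p (0, 1) * fderiv ℝ (e j) p (0, 1)) := by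
    intro p
    rw [fd_sum he, fd_sum he, Finset.sum_mul_sum, Finset.sum_mul_sum, ← Finset.sum_add_distrib]
    refine Finset.sum_congr rfl fun i _ => ?_
    rw [← Finset.sum_add_distrib]
    refine Finset.sum_congr rfl fun j _ => ?_
    ring
  rw [integral_congr_ae (Filter.Eventually.of_forall e1), integral_finset_sum]
  · refine Finset.sum_congr rfl fun i _ => ?_
    rw [integral_finset_sum]
    · refine Finset.sum_congr rfl fun j _ => ?_
      rw [integral_const_mul]
    · intro j _
      exact hI (continuous_const.mul (hc i j))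
  · intro i _
    exact hI (continuous_finset_sum _ fun j _ => continuous_const.mul (hc i j))

omit he in
lemma bd_eq (u : ℝ × ℝ → ℝ) : bd u = B2 u u := by
  unfold bd B2
  simp only [pow_two]

omit he in
lemma energy_eq (u : ℝ × ℝ → ℝ) : energy u = E2 u u := by
  unfold energy E2
  simp only [pow_two]

omit he in
lemma bd_nonneg (u : ℝ × ℝ → ℝ) : 0 ≤ bd u := by
  unfold bd
  refine intervalIntegral.integral_nonneg ?_ fun s _ => Finset.sum_nonneg fun m _ => sq_nonneg _
  have := Real.sqrt_nonneg 3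
  linarith

omit he in
lemma energy_nonneg (u : ℝ × ℝ → ℝ) : 0 ≤ energy u :=
  integral_nonneg fun p => by positivity

end MM

open MM

theorem minmax_stmt : MinMaxStmt := by
  intro k M e s he hE hB hpos hs
  have hB2 : ∀ a : Fin (k + 1) → ℝ, bd (∑ i, a i • e i) = ∑ i, a i ^ 2 * B2 (e i) (e i) := by
    intro a
    rw [bd_eq, B2_sum he]
    refine Finset.sum_congr rfl fun i _ => ?_
    rw [Finset.sum_eq_single i]
    · ring
    · intro j _ hji
      rw [hB i j (Ne.symm hji), mul_zero]
    · intro h; exact absurd (Finset.mem_univ i) h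
  have hE2 : ∀ a : Fin (k + 1) → ℝ, energy (∑ i, a i • e i) =
      ∑ i, a i ^ 2 * (s i * B2 (e i) (e i)) := by
    intro a
    rw [energy_eq, E2_sum he]
    refine Finset.sum_congr rfl fun i _ => ?_
    rw [Finset.sum_eq_single i]
    · rw [hE]; ring
    · intro j _ hji
      rw [hE, hB i j (Ne.symm hji), mul_zero, mul_zero]
    · intro h; exact absurd (Finset.mem_univ i) h
  have hzero : ∀ a : Fin (k + 1) → ℝ, bd (∑ i, a i • e i) = 0 → ∀ i, a i = 0 := by
    intro a ha i
    rw [hB2, Finset.sum_eq_zero_iff_of_nonneg fun i _ => mul_nonneg (sq_nonneg _) (hpos i).le] at ha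
    have h1 := ha i (Finset.mem_univ i)
    rcases mul_eq_zero.1 h1 with h2 | h2
    · exact pow_eq_zero_iff (two_ne_zero) |>.1 h2
    · exact absurd h2 (hpos i).ne'
  have hli : LinearIndependent ℝ e := by
    rw [Fintype.linearIndependent_iff]
    intro a ha
    refine hzero a ?_
    rw [ha, bd_eq]
    unfold B2
    simp
  have hmem : ∀ u ∈ Submodule.span ℝ (Set.range e), ∃ a : Fin (k + 1) → ℝ, ∑ i, a i • e i = u :=
    fun u hu => (Submodule.mem_span_range_iff_exists_fun ℝ).1 hu
  refine csInf_le ⟨0, ?_⟩ ⟨Submodule.span ℝ (Set.range e), ?_, ?_, ?_, ?_⟩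
  · rintro M' ⟨V, hV1, hV2, hV3, hV4⟩
    have : Nontrivial V := by
      apply Module.nontrivial_of_finrank_pos (R := ℝ)
      rw [hV2]; omega
    obtain ⟨⟨u, hu⟩, hne⟩ := exists_ne (0 : V)
    have hu0 : u ≠ 0 := fun h => hne (Subtype.ext h)
    have hb : 0 < bd u := lt_of_le_of_ne (bd_nonneg u) fun h => hu0 (hV3 u hu h.symm)
    have h1 := hV4 u hu
    have h2 := energy_nonneg u
    by_contra hcon
    push Not at hcon
    nlinarith
  · intro u hu
    obtain ⟨a, rfl⟩ := hmem u hu
    have : (∑ i, a i • e i : ℝ × ℝ → ℝ) = fun p => ∑ i, a i • e i p := by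
      ext p; simp [Finset.sum_apply]
    rw [this]
    exact ContDiff.sum fun i _ => (he i).const_smul (a i)
  · rw [finrank_span_eq_card hli, Fintype.card_fin]
  · intro u hu hb
    obtain ⟨a, rfl⟩ := hmem u hu
    have := hzero a hb
    simp [this]
  · intro u hu
    obtain ⟨a, rfl⟩ := hmem u hu
    rw [hE2, hB2, Finset.mul_sum]
    refine Finset.sum_le_sum fun i _ => ?_
    have h1 : 0 ≤ a i ^ 2 * B2 (e i) (e i) := mul_nonneg (sq_nonneg _) (hpos i).le
    have h2 := mul_le_mul_of_nonneg_right (hs i) h1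
    calc a i ^ 2 * (s i * B2 (e i) (e i)) = s i * (a i ^ 2 * B2 (e i) (e i)) := by ring
      _ ≤ _ := h2

end Pool.Agent.R204.ST
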