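import Mathlib
import Pool.Agent.R204.ST.Stm

/-!
# ST-4: the explicit three-wave functions are Steklov eigenfunctions of the triangle
-/

open MeasureTheory Real Set

namespace Pool.Agent.R204.ST

noncomputable section

/-- Linear combinations of products of exponentials and trigonometric functions. -/
def Hf (c C S φ α β γ δ : ℝ) (p : ℝ × ℝ) : ℝ :=
  exp (c * (C * p.1 - S * p.2)) *
      (α * cos (φ + c * (S * p.1 + C * p.2)) + β * sin (φ + c * (S * p.1 + C * p.2)))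
    + exp (-(c * (C * p.1 - S * p.2))) *
      (γ * cos (φ + c * (S * p.1 + C * p.2)) + δ * sin (φ + c * (S * p.1 + C * p.2)))

lemma wave_eq (c f C S φ : ℝ) : wave c f C S φ = Hf c C S φ 1 0 (-f) 0 := by
  funext p
  unfold wave Hf
  ring

lemma Hf_contDiff (c C S φ α β γ δ : ℝ) : ContDiff ℝ ⊤ (Hf c C S φ α β γ δ) := by
  unfold Hf
  fun_prop

lemma Hf_diff (c C S φ α β γ δ : ℝ) : Differentiable ℝ (Hf c C S φ α β γ δ) :=
  (Hf_contDiff c C S φ α β γ δ).differentiable (by simp)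

lemma Hf_fderiv (c C S φ α β γ δ : ℝ) (p v : ℝ × ℝ) :
    fderiv ℝ (Hf c C S φ α β γ δ) p v =
      Hf c C S φ (c * (C * v.1 - S * v.2) * α + c * (S * v.1 + C * v.2) * β)
        (c * (C * v.1 - S * v.2) * β - c * (S * v.1 + C * v.2) * α)
        (-(c * (C * v.1 - S * v.2)) * γ + c * (S * v.1 + C * v.2) * δ)
        (-(c * (C * v.1 - S * v.2)) * δ - c * (S * v.1 + C * v.2) * γ) p := by
  have hX : HasFDerivAt (fun p : ℝ × ℝ => c * (C * p.1 - S * p.2))
      (c • (C • ContinuousLinearMap.fst ℝ ℝ ℝ - S • ContinuousLinearMap.snd ℝ ℝ ℝ)) p :=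
    ((hasFDerivAt_fst.const_mul C).sub (hasFDerivAt_snd.const_mul S)).const_mul c
  have hY : HasFDerivAt (fun p : ℝ × ℝ => φ + c * (S * p.1 + C * p.2))
      (c • (S • ContinuousLinearMap.fst ℝ ℝ ℝ + C • ContinuousLinearMap.snd ℝ ℝ ℝ)) p :=
    (((hasFDerivAt_fst.const_mul S).add (hasFDerivAt_snd.const_mul C)).const_mul c).const_add φ
  have h1 := (hX.exp.mul ((hY.cos.const_mul α).add (hY.sin.const_mul β))).add
    (hX.neg.exp.mul ((hY.cos.const_mul γ).add (hY.sin.const_mul δ)))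
  have h2 : fderiv ℝ (Hf c C S φ α β γ δ) p = _ := h1.fderiv
  rw [h2]
  unfold Hf
  simp only [_root_.add_apply, _root_.smul_apply, _root_.sub_apply, _root_.neg_apply,
    ContinuousLinearMap.coe_fst', ContinuousLinearMap.coe_snd', smul_eq_mul, Pi.add_apply,
    Pi.neg_apply]
  ring

lemma sum3_fderiv {u1 u2 u3 : ℝ × ℝ → ℝ} (h1 : Differentiable ℝ u1) (h2 : Differentiable ℝ u2)
    (h3 : Differentiable ℝ u3) (p v : ℝ × ℝ) :
    fderiv ℝ (fun p => u1 p + u2 p + u3 p) p v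
      = fderiv ℝ u1 p v + fderiv ℝ u2 p v + fderiv ℝ u3 p v := by
  have h := (((h1 p).hasFDerivAt.add (h2 p).hasFDerivAt).add (h3 p).hasFDerivAt).fderiv
  have h' : fderiv ℝ (fun p => u1 p + u2 p + u3 p) p
      = fderiv ℝ u1 p + fderiv ℝ u2 p + fderiv ℝ u3 p := h
  rw [h']
  rfl

/-- the Laplacian of one wave -/
lemma Hf_lap (c C S φ α β γ δ : ℝ) (p : ℝ × ℝ) :
    fderiv ℝ (fun q => fderiv ℝ (Hf c C S φ α β γ δ) q (1, 0)) p (1, 0)
      + fderiv ℝ (fun q => fderiv ℝ (Hf c C S φ α β γ δ) q (0, 1)) p (0, 1) = 0 := by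
  have e1 : ∀ v : ℝ × ℝ, (fun q => fderiv ℝ (Hf c C S φ α β γ δ) q v) =
      Hf c C S φ (c * (C * v.1 - S * v.2) * α + c * (S * v.1 + C * v.2) * β)
        (c * (C * v.1 - S * v.2) * β - c * (S * v.1 + C * v.2) * α)
        (-(c * (C * v.1 - S * v.2)) * γ + c * (S * v.1 + C * v.2) * δ)
        (-(c * (C * v.1 - S * v.2)) * δ - c * (S * v.1 + C * v.2) * γ) :=
    fun v => funext fun q => Hf_fderiv c C S φ α β γ δ q v
  rw [e1, e1, Hf_fderiv, Hf_fderiv]
  unfold Hf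
  ring

/-- one wave in the boundary condition -/
def Kc (c f σ X Y x y φ : ℝ) : ℝ :=
  c * x * (exp (c * X) + f * exp (-(c * X))) * cos (φ + c * Y)
    - c * y * (exp (c * X) - f * exp (-(c * X))) * sin (φ + c * Y)
    - σ * ((exp (c * X) - f * exp (-(c * X))) * cos (φ + c * Y))

lemma Kc_congr (c f σ φ : ℝ) {X X' Y Y' x x' y y' : ℝ} (hX : X = X') (hY : Y = Y')
    (hx : x = x') (hy : y = y') : Kc c f σ X Y x y φ = Kc c f σ X' Y' x' y' φ := by
  subst hX hY hx hy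
  rfl

lemma wave_bc (c f σ C S φ : ℝ) (p v : ℝ × ℝ) :
    fderiv ℝ (wave c f C S φ) p v - σ * wave c f C S φ p =
      Kc c f σ (C * p.1 - S * p.2) (S * p.1 + C * p.2) (C * v.1 - S * v.2)
        (S * v.1 + C * v.2) φ := by
  rw [wave_eq, Hf_fderiv]
  unfold Hf Kc
  ring

lemma K0_zero {c t : ℝ} (ht : 0 < t) (s φ : ℝ) :
    Kc c (f0 c t) (c / t) 1 s 1 0 φ = 0 := by
  unfold Kc f0
  have h1 : exp (2 * c) * exp (-(c * 1)) = exp (c * 1) := by
    rw [← Real.exp_add]; congr 1; ring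
  have h2 : (1 - t) / (1 + t) * exp (2 * c) * exp (-(c * 1)) = (1 - t) / (1 + t) * exp (c * 1) := by
    rw [mul_assoc, h1]
  rw [h2]
  have ht1 : (1 + t) ≠ 0 := by positivity
  field_simp
  ring

lemma PrPi {C' S' t g r : ℝ} (ht : 0 < t) (h1 : (1 + t + t ^ 2) * (C' ^ 2 - S' ^ 2) = g * (1 - t ^ 2))
    (h2 : (1 + t + t ^ 2) * (2 * S' * C') = g * (r * t)) (h3 : C' ^ 2 + S' ^ 2 = 1)
    (h4 : r ^ 2 = 3) :
    (1 + t / 2) * C' + r / 2 * t * S' - g * ((1 - t / 2) * C' + r / 2 * t * S') = 0 ∧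
    (1 + t / 2) * S' - r / 2 * t * C' + g * ((1 - t / 2) * S' - r / 2 * t * C') = 0 := by
  have hN : (1 + t + t ^ 2) ≠ 0 := by positivity
  constructor
  · apply mul_left_cancel₀ hN
    linear_combination ((1 + t / 2) * C' - r * t / 2 * S') * h1
      + ((1 + t / 2) * S' + r * t / 2 * C') * h2
      - (1 + t + t ^ 2) * ((1 + t / 2) * C' + r * t / 2 * S') * h3
      + g * (t ^ 2 / 2 * C') * h4
  · apply mul_left_cancel₀ hN
    linear_combination ((1 + t / 2) * C' - r * t / 2 * S') * h2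
      - ((1 + t / 2) * S' + r * t / 2 * C') * h1
      - (1 + t + t ^ 2) * ((1 + t / 2) * S' - r * t / 2 * C') * h3
      - g * (t ^ 2 / 2 * S') * h4

lemma fin_id {A b b' cb sb cd sd g σ c t r : ℝ} (hσ : c = σ * t)
    (hU : (1 + t / 2) * cd + r / 2 * t * sd - g * ((1 - t / 2) * cd + r / 2 * t * sd) = 0)
    (hW : (1 + t / 2) * sd - r / 2 * t * cd + g * ((1 - t / 2) * sd - r / 2 * t * cd) = 0) :
    c * (-1 / 2) * (A * b' + g * (A * b)) * (cb * cd - sb * sd)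
        - c * (r / 2) * (A * b' - g * (A * b)) * (sb * cd + cb * sd)
        - σ * ((A * b' - g * (A * b)) * (cb * cd - sb * sd))
      + (c * (-1 / 2) * (A * b + g * (A * b')) * (cb * cd + sb * sd)
        - c * (-(r / 2)) * (A * b - g * (A * b')) * (sb * cd - cb * sd)
        - σ * ((A * b - g * (A * b')) * (cb * cd + sb * sd))) = 0 := by
  subst hσ
  linear_combination (-(A * b' * σ * cb) - A * b * σ * cb) * hU
    + (A * b' * σ * sb - A * b * σ * sb) * hW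

lemma K12_zero {c t q : ℝ} {j : ℕ} (hq : 3 * q = j * (2 * π)) (h : Par q c t) (s φ : ℝ) :
    Kc c (f0 c t) (c / t) (-1 / 2 - √3 / 2 * s) (√3 / 2 - s / 2) (-1 / 2) (√3 / 2) φ
      + Kc c (f0 c t) (c / t) (-1 / 2 + √3 / 2 * s) (-(√3 / 2) - s / 2) (-1 / 2) (-(√3 / 2))
        (φ + q) = 0 := by
  obtain ⟨hc, ht, hp1, hp2⟩ := h
  have hr : √3 ^ 2 = 3 := Real.sq_sqrt (by norm_num)
  have ht1 : (1 + t) ≠ 0 := by positivity
  set r := √3 with hrdef
  set g := (1 - t) / (1 + t) * exp (3 * c) with hg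
  set δ := q + r * c / 2 with hδ
  set β := φ - q - c * s / 2 with hβ
  -- the double angle relations
  have hcos : cos (r * c - q) = cos δ ^ 2 - sin δ ^ 2 := by
    have e1 : r * c - q = 2 * δ - j * (2 * π) := by rw [← hq, hδ]; ring
    rw [e1, Real.cos_sub_nat_mul_two_pi, Real.cos_two_mul]
    have := Real.sin_sq_add_cos_sq δ
    linear_combination this
  have hsin : sin (r * c - q) = 2 * sin δ * cos δ := by
    have e1 : r * c - q = 2 * δ - j * (2 * π) := by rw [← hq, hδ]; ring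
    rw [e1, Real.sin_sub_nat_mul_two_pi, Real.sin_two_mul]
  rw [hcos] at hp1
  rw [hsin] at hp2
  have h1 : (1 + t + t ^ 2) * (cos δ ^ 2 - sin δ ^ 2) = g * (1 - t ^ 2) := by
    apply mul_left_cancel₀ ht1
    rw [hg]
    field_simp
    linear_combination hp1
  have h2 : (1 + t + t ^ 2) * (2 * sin δ * cos δ) = g * (r * t) := by
    apply mul_left_cancel₀ ht1
    rw [hg]
    field_simp
    linear_combination hp2
  have h3 : cos δ ^ 2 + sin δ ^ 2 = 1 := by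
    have := Real.sin_sq_add_cos_sq δ
    linear_combination this
  obtain ⟨hU, hW⟩ := PrPi ht h1 h2 h3 hr
  -- the exponentials
  have eX1 : exp (c * (-1 / 2 - r / 2 * s)) = exp (-(c / 2)) * exp (-(r * c * s / 2)) := by
    rw [← Real.exp_add]; congr 1; ring
  have eX1' : f0 c t * exp (-(c * (-1 / 2 - r / 2 * s)))
      = g * (exp (-(c / 2)) * exp (r * c * s / 2)) := by
    rw [hg, f0, mul_assoc, mul_assoc, ← Real.exp_add, ← Real.exp_add, ← Real.exp_add]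
    congr 2; ring
  have eX2 : exp (c * (-1 / 2 + r / 2 * s)) = exp (-(c / 2)) * exp (r * c * s / 2) := by
    rw [← Real.exp_add]; congr 1; ring
  have eX2' : f0 c t * exp (-(c * (-1 / 2 + r / 2 * s)))
      = g * (exp (-(c / 2)) * exp (-(r * c * s / 2))) := by
    rw [hg, f0, mul_assoc, mul_assoc, ← Real.exp_add, ← Real.exp_add, ← Real.exp_add]
    congr 2; ring
  -- the angles
  have a1 : φ + c * (r / 2 - s / 2) = β + δ := by rw [hβ, hδ]; ring
  have a2 : φ + q + c * (-(r / 2) - s / 2) = β - δ + j * (2 * π) := by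
    rw [hβ, hδ, ← hq]; ring
  unfold Kc
  rw [a1, a2, Real.cos_add_nat_mul_two_pi, Real.sin_add_nat_mul_two_pi, eX1, eX1', eX2, eX2',
    Real.cos_add β δ, Real.sin_add β δ, Real.cos_sub β δ, Real.sin_sub β δ]
  have hσ : c = c / t * t := by field_simp
  exact fin_id hσ hU hW

/-- the last lemma, with the phases in the other order -/
lemma K12_zero' {c t q : ℝ} {j : ℕ} (hq : 3 * q = j * (2 * π)) (h : Par q c t) (s φ φ' : ℝ)
    (k : ℕ) (hφ : φ + q = φ' + k * (2 * π)) :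
    Kc c (f0 c t) (c / t) (-1 / 2 - √3 / 2 * s) (√3 / 2 - s / 2) (-1 / 2) (√3 / 2) φ
      + Kc c (f0 c t) (c / t) (-1 / 2 + √3 / 2 * s) (-(√3 / 2) - s / 2) (-1 / 2) (-(√3 / 2))
        φ' = 0 := by
  have h1 := K12_zero hq h s φ
  rw [hφ] at h1
  have h2 : ∀ X Y x y : ℝ, Kc c (f0 c t) (c / t) X Y x y (φ' + k * (2 * π))
      = Kc c (f0 c t) (c / t) X Y x y φ' := by
    intro X Y x y
    unfold Kc
    have e1 : φ' + k * (2 * π) + c * Y = φ' + c * Y + k * (2 * π) := by ring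
    rw [e1, Real.cos_add_nat_mul_two_pi, Real.sin_add_nat_mul_two_pi]
  rw [h2] at h1
  exact h1

/-- ST-4 -/
theorem phi_stmt : PhiStmt := by
  intro j c t θ hpar
  obtain ⟨hc, ht, -, -⟩ := id hpar
  set q := 2 * π * j / 3 with hqdef
  have hq : 3 * q = j * (2 * π) := by rw [hqdef]; ring
  have hr : √3 ^ 2 = 3 := Real.sq_sqrt (by norm_num)
  have hF : F c t q θ = fun p => Hf c 1 0 (-θ) 1 0 (-(f0 c t)) 0 p
      + Hf c (-1 / 2) (√3 / 2) (q - θ) 1 0 (-(f0 c t)) 0 p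
      + Hf c (-1 / 2) (-(√3 / 2)) (2 * q - θ) 1 0 (-(f0 c t)) 0 p := by
    funext p
    unfold F
    rw [wave_eq, wave_eq, wave_eq]
  refine ⟨?_, ?_, ?_⟩
  · rw [hF]
    exact ((Hf_contDiff _ _ _ _ _ _ _ _).add (Hf_contDiff _ _ _ _ _ _ _ _)).add
      (Hf_contDiff _ _ _ _ _ _ _ _)
  · intro p
    have e1 : ∀ v : ℝ × ℝ, (fun p => fderiv ℝ (F c t q θ) p v)
        = fun p => (fun p => fderiv ℝ (Hf c 1 0 (-θ) 1 0 (-(f0 c t)) 0) p v) p
          + (fun p => fderiv ℝ (Hf c (-1 / 2) (√3 / 2) (q - θ) 1 0 (-(f0 c t)) 0) p v) p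
          + (fun p => fderiv ℝ (Hf c (-1 / 2) (-(√3 / 2)) (2 * q - θ) 1 0 (-(f0 c t)) 0) p v) p := by
      intro v
      funext p
      rw [hF]
      exact sum3_fderiv (Hf_diff _ _ _ _ _ _ _ _) (Hf_diff _ _ _ _ _ _ _ _)
        (Hf_diff _ _ _ _ _ _ _ _) p v
    have d1 : ∀ (C S φ α β γ δ : ℝ) (v : ℝ × ℝ),
        Differentiable ℝ (fun p => fderiv ℝ (Hf c C S φ α β γ δ) p v) := by
      intro C S φ α β γ δ v
      have e2 := funext fun p => Hf_fderiv c C S φ α β γ δ p v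
      rw [e2]
      exact Hf_diff _ _ _ _ _ _ _ _
    rw [e1, e1, sum3_fderiv (d1 _ _ _ _ _ _ _ _) (d1 _ _ _ _ _ _ _ _) (d1 _ _ _ _ _ _ _ _),
      sum3_fderiv (d1 _ _ _ _ _ _ _ _) (d1 _ _ _ _ _ _ _ _) (d1 _ _ _ _ _ _ _ _)]
    have l1 := Hf_lap c 1 0 (-θ) 1 0 (-(f0 c t)) 0 p
    have l2 := Hf_lap c (-1 / 2) (√3 / 2) (q - θ) 1 0 (-(f0 c t)) 0 p
    have l3 := Hf_lap c (-1 / 2) (-(√3 / 2)) (2 * q - θ) 1 0 (-(f0 c t)) 0 p
    linear_combination l1 + l2 + l3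
  · intro m s
    have hbc : fderiv ℝ (F c t q θ) (side m s) (side m 0) - c / t * F c t q θ (side m s)
        = Kc c (f0 c t) (c / t) (1 * (side m s).1 - 0 * (side m s).2)
            (0 * (side m s).1 + 1 * (side m s).2) (1 * (side m 0).1 - 0 * (side m 0).2)
            (0 * (side m 0).1 + 1 * (side m 0).2) (-θ)
          + Kc c (f0 c t) (c / t) (-1 / 2 * (side m s).1 - √3 / 2 * (side m s).2)
            (√3 / 2 * (side m s).1 + -1 / 2 * (side m s).2)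
            (-1 / 2 * (side m 0).1 - √3 / 2 * (side m 0).2)
            (√3 / 2 * (side m 0).1 + -1 / 2 * (side m 0).2) (q - θ)
          + Kc c (f0 c t) (c / t) (-1 / 2 * (side m s).1 - -(√3 / 2) * (side m s).2)
            (-(√3 / 2) * (side m s).1 + -1 / 2 * (side m s).2)
            (-1 / 2 * (side m 0).1 - -(√3 / 2) * (side m 0).2)
            (-(√3 / 2) * (side m 0).1 + -1 / 2 * (side m 0).2) (2 * q - θ) := by
      rw [← wave_bc, ← wave_bc, ← wave_bc, wave_eq, wave_eq, wave_eq, hF,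
        sum3_fderiv (Hf_diff _ _ _ _ _ _ _ _) (Hf_diff _ _ _ _ _ _ _ _)
          (Hf_diff _ _ _ _ _ _ _ _)]
      ring
    rw [← sub_eq_zero, hbc]
    have hcases : m = 0 ∨ m = 1 ∨ m = 2 := by fin_cases m <;> simp
    rcases hcases with rfl | rfl | rfl
    · have b0 := K0_zero (c := c) ht s (-θ)
      have b1 := K12_zero' hq hpar s (q - θ) (2 * q - θ) 0 (by push_cast; ring)
      have e0 : Kc c (f0 c t) (c / t) 1 s 1 0 (-θ) + Kc c (f0 c t) (c / t) (-1 / 2 - √3 / 2 * s) (√3 / 2 - s / 2) (-1 / 2) (√3 / 2) (q - θ) + Kc c (f0 c t) (c / t) (-1 / 2 + √3 / 2 * s) (-(√3 / 2) - s / 2) (-1 / 2) (-(√3 / 2)) (2 * q - θ) = 0 := by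
        linear_combination b0 + b1
      refine Eq.trans ?_ e0
      refine congrArg₂ (· + ·) (congrArg₂ (· + ·) (Kc_congr _ _ _ _ ?_ ?_ ?_ ?_)
        (Kc_congr _ _ _ _ ?_ ?_ ?_ ?_)) (Kc_congr _ _ _ _ ?_ ?_ ?_ ?_)
      all_goals simp only [side]
      all_goals first | ring1 | (ring_nf; rw [hr]; ring1)
    · have b0 := K0_zero (c := c) ht s (2 * q - θ)
      have b1 := K12_zero' hq hpar s (-θ) (q - θ) 0 (by push_cast; ring)
      have e0 : Kc c (f0 c t) (c / t) (-1 / 2 - √3 / 2 * s) (√3 / 2 - s / 2) (-1 / 2) (√3 / 2) (-θ) + Kc c (f0 c t) (c / t) (-1 / 2 + √3 / 2 * s) (-(√3 / 2) - s / 2) (-1 / 2) (-(√3 / 2)) (q - θ) + Kc c (f0 c t) (c / t) 1 s 1 0 (2 * q - θ) = 0 := by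
        linear_combination b0 + b1
      refine Eq.trans ?_ e0
      refine congrArg₂ (· + ·) (congrArg₂ (· + ·) (Kc_congr _ _ _ _ ?_ ?_ ?_ ?_)
        (Kc_congr _ _ _ _ ?_ ?_ ?_ ?_)) (Kc_congr _ _ _ _ ?_ ?_ ?_ ?_)
      all_goals simp only [side]
      all_goals first | ring1 | (ring_nf; rw [hr]; ring1)
    · have b0 := K0_zero (c := c) ht s (q - θ)
      have b1 := K12_zero' hq hpar s (2 * q - θ) (-θ) j (by rw [← hq]; ring)
      have e0 : Kc c (f0 c t) (c / t) (-1 / 2 + √3 / 2 * s) (-(√3 / 2) - s / 2) (-1 / 2) (-(√3 / 2)) (-θ) + Kc c (f0 c t) (c / t) 1 s 1 0 (q - θ) + Kc c (f0 c t) (c / t) (-1 / 2 - √3 / 2 * s) (√3 / 2 - s / 2) (-1 / 2) (√3 / 2) (2 * q - θ) = 0 := by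
        linear_combination b0 + b1
      refine Eq.trans ?_ e0
      refine congrArg₂ (· + ·) (congrArg₂ (· + ·) (Kc_congr _ _ _ _ ?_ ?_ ?_ ?_)
        (Kc_congr _ _ _ _ ?_ ?_ ?_ ?_)) (Kc_congr _ _ _ _ ?_ ?_ ?_ ?_)
      all_goals simp only [side]
      all_goals first | ring1 | (ring_nf; rw [hr]; ring1)

end

end Pool.Agent.R204.ST
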