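import Mathlib
import Pool.Agent.R204.ST.Stm

/-! Positivity of the boundary norm of the explicit Steklov functions. -/

open MeasureTheory Real Set

namespace Pool.Agent.R204.ST

noncomputable section

lemma pos_wave_cont (c f C S φ : ℝ) : Continuous (wave c f C S φ) := by
  unfold wave
  fun_prop

lemma pos_F_cont (c t q θ : ℝ) : Continuous (F c t q θ) := by
  unfold F
  exact ((pos_wave_cont _ _ _ _ _).add (pos_wave_cont _ _ _ _ _)).add (pos_wave_cont _ _ _ _ _)

/-- the restriction to the side `0` -/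
def posG (c t q θ s : ℝ) : ℝ :=
  (exp c - f0 c t * exp (-c)) * cos (c * s - θ)
    + exp (-(√3 * c * s / 2)) * (exp (-(c / 2)) * cos (q - θ + c * (√3 / 2 - s / 2))
      - f0 c t * exp (c / 2) * cos (2 * q - θ + c * (-(√3 / 2) - s / 2)))
    + exp (√3 * c * s / 2) * (exp (-(c / 2)) * cos (2 * q - θ + c * (-(√3 / 2) - s / 2))
      - f0 c t * exp (c / 2) * cos (q - θ + c * (√3 / 2 - s / 2)))

lemma pos_F_side (c t q θ s : ℝ) : F c t q θ (1, s) = posG c t q θ s := by
  unfold F posG wave
  have e1 : exp (c * (1 * (1 : ℝ) - 0 * s)) = exp c := by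
    congr 1
    ring
  have e2 : exp (-(c * (1 * (1 : ℝ) - 0 * s))) = exp (-c) := by
    congr 1
    ring
  have e3 : cos (-θ + c * (0 * (1 : ℝ) + 1 * s)) = cos (c * s - θ) := by
    congr 1
    ring
  have e4 : exp (c * (-1 / 2 * (1 : ℝ) - √3 / 2 * s))
      = exp (-(√3 * c * s / 2)) * exp (-(c / 2)) := by
    rw [← exp_add]
    congr 1
    ring
  have e5 : exp (-(c * (-1 / 2 * (1 : ℝ) - √3 / 2 * s)))
      = exp (√3 * c * s / 2) * exp (c / 2) := by
    rw [← exp_add]
    congr 1
    ring
  have e6 : exp (c * (-1 / 2 * (1 : ℝ) - -(√3 / 2) * s))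
      = exp (√3 * c * s / 2) * exp (-(c / 2)) := by
    rw [← exp_add]
    congr 1
    ring
  have e7 : exp (-(c * (-1 / 2 * (1 : ℝ) - -(√3 / 2) * s)))
      = exp (-(√3 * c * s / 2)) * exp (c / 2) := by
    rw [← exp_add]
    congr 1
    ring
  have e8 : cos (q - θ + c * (√3 / 2 * (1 : ℝ) + -1 / 2 * s))
      = cos (q - θ + c * (√3 / 2 - s / 2)) := by
    congr 1
    ring
  have e9 : cos (2 * q - θ + c * (-(√3 / 2) * (1 : ℝ) + -1 / 2 * s))
      = cos (2 * q - θ + c * (-(√3 / 2) - s / 2)) := by
    congr 1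
    ring
  simp only [e1, e2, e3, e4, e5, e6, e7, e8, e9]
  ring

lemma pos_analytic (c t q θ : ℝ) : AnalyticOnNhd ℝ (posG c t q θ) univ := by
  intro s _
  unfold posG
  fun_prop

lemma pos_shift (c t q θ : ℝ) (hc : 0 < c) (k : ℤ) :
    posG c t q θ (θ / c + k * (4 * π / c))
      = (exp c - f0 c t * exp (-c))
        + exp (-(2 * √3 * π * k)) * (exp (-(√3 * θ / 2)) *
          (exp (-(c / 2)) * cos (q - θ + c * (√3 / 2 - θ / c / 2))
            - f0 c t * exp (c / 2) * cos (2 * q - θ + c * (-(√3 / 2) - θ / c / 2))))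
        + exp (2 * √3 * π * k) * (exp (√3 * θ / 2) *
          (exp (-(c / 2)) * cos (2 * q - θ + c * (-(√3 / 2) - θ / c / 2))
            - f0 c t * exp (c / 2) * cos (q - θ + c * (√3 / 2 - θ / c / 2)))) := by
  unfold posG
  have e1 : cos (c * (θ / c + k * (4 * π / c)) - θ) = 1 := by
    have : c * (θ / c + k * (4 * π / c)) - θ = ((2 * k : ℤ) : ℝ) * (2 * π) := by
      push_cast
      field_simp
      ring
    rw [this, cos_int_mul_two_pi]
  have e2 : exp (-(√3 * c * (θ / c + k * (4 * π / c)) / 2))
      = exp (-(2 * √3 * π * k)) * exp (-(√3 * θ / 2)) := by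
    rw [← exp_add]
    congr 1
    field_simp
    ring
  have e3 : exp (√3 * c * (θ / c + k * (4 * π / c)) / 2)
      = exp (2 * √3 * π * k) * exp (√3 * θ / 2) := by
    rw [← exp_add]
    congr 1
    field_simp
    ring
  have e4 : cos (q - θ + c * (√3 / 2 - (θ / c + k * (4 * π / c)) / 2))
      = cos (q - θ + c * (√3 / 2 - θ / c / 2)) := by
    have : q - θ + c * (√3 / 2 - (θ / c + k * (4 * π / c)) / 2)
        = q - θ + c * (√3 / 2 - θ / c / 2) - (k : ℝ) * (2 * π) := by
      field_simp
      ring
    rw [this, cos_sub_int_mul_two_pi]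
  have e5 : cos (2 * q - θ + c * (-(√3 / 2) - (θ / c + k * (4 * π / c)) / 2))
      = cos (2 * q - θ + c * (-(√3 / 2) - θ / c / 2)) := by
    have : 2 * q - θ + c * (-(√3 / 2) - (θ / c + k * (4 * π / c)) / 2)
        = 2 * q - θ + c * (-(√3 / 2) - θ / c / 2) - (k : ℝ) * (2 * π) := by
      field_simp
      ring
    rw [this, cos_sub_int_mul_two_pi]
  rw [e1, e2, e3, e4, e5]
  ring

theorem pos_stmt : PosStmt := by
  intro j c t θ hc ht
  set q : ℝ := 2 * π * j / 3 with hq
  have h3 : (0 : ℝ) < √3 := by positivity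
  unfold B2
  apply intervalIntegral.integral_pos (by linarith)
  · apply Continuous.continuousOn
    have hF := pos_F_cont c t q θ
    have hs : ∀ m : Fin 3, Continuous (side m) := by
      intro m
      fin_cases m
      · show Continuous (fun s : ℝ => ((1 : ℝ), s))
        fun_prop
      · show Continuous (fun s : ℝ => (-1 / 2 - √3 / 2 * s, √3 / 2 - s / 2))
        fun_prop
      · show Continuous (fun s : ℝ => (-1 / 2 + √3 / 2 * s, -(√3 / 2) - s / 2))
        fun_prop
    exact continuous_finsetSum _ (fun m _ => (hF.comp (hs m)).mul (hF.comp (hs m)))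
  · intro s _
    exact Finset.sum_nonneg (fun m _ => mul_self_nonneg _)
  · by_contra hcon
    have hzero : ∀ s ∈ Icc (-√3) (√3), posG c t q θ s = 0 := by
      intro s hs
      by_contra hne
      apply hcon
      refine ⟨s, hs, ?_⟩
      refine Finset.sum_pos' (fun m _ => mul_self_nonneg _) ⟨0, Finset.mem_univ _, ?_⟩
      have : F c t q θ (side 0 s) = posG c t q θ s := pos_F_side c t q θ s
      rw [this]
      exact mul_self_pos.mpr hne
    have hev : posG c t q θ =ᶠ[nhds 0] 0 := by
      filter_upwards [Icc_mem_nhds (show -√3 < 0 by linarith) h3] with s hs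
      exact hzero s hs
    have hall : ∀ s, posG c t q θ s = 0 := by
      intro s
      have := (pos_analytic c t q θ).eqOn_zero_of_preconnected_of_eventuallyEq_zero
        isPreconnected_univ (mem_univ 0) hev
      exact this (mem_univ s)
    have g0 := pos_shift c t q θ hc 0
    have g1 := pos_shift c t q θ hc 1
    have g2 := pos_shift c t q θ hc (-1)
    rw [hall] at g0 g1 g2
    set A := exp c - f0 c t * exp (-c) with hA
    set p := exp (-(√3 * θ / 2)) *
          (exp (-(c / 2)) * cos (q - θ + c * (√3 / 2 - θ / c / 2))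
            - f0 c t * exp (c / 2) * cos (2 * q - θ + c * (-(√3 / 2) - θ / c / 2))) with hp
    set p' := exp (√3 * θ / 2) *
          (exp (-(c / 2)) * cos (2 * q - θ + c * (-(√3 / 2) - θ / c / 2))
            - f0 c t * exp (c / 2) * cos (q - θ + c * (√3 / 2 - θ / c / 2))) with hp'
    set r := exp (2 * √3 * π) with hr
    have hr1 : 1 < r := by
      rw [hr]
      apply one_lt_exp_iff.mpr
      positivity
    have hrinv : exp (-(2 * √3 * π)) = r⁻¹ := by rw [exp_neg]
    have x0 : exp (-(2 * √3 * π * ((0 : ℤ) : ℝ))) = 1 := by simp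
    have x0' : exp (2 * √3 * π * ((0 : ℤ) : ℝ)) = 1 := by simp
    have x1 : exp (-(2 * √3 * π * ((1 : ℤ) : ℝ))) = r⁻¹ := by
      rw [← hrinv]
      simp
    have x1' : exp (2 * √3 * π * ((1 : ℤ) : ℝ)) = r := by
      rw [hr]
      simp
    have x2 : exp (-(2 * √3 * π * ((-1 : ℤ) : ℝ))) = r := by
      rw [hr]
      simp
    have x2' : exp (2 * √3 * π * ((-1 : ℤ) : ℝ)) = r⁻¹ := by
      rw [← hrinv]
      simp
    rw [x0, x0'] at g0
    rw [x1, x1'] at g1
    rw [x2, x2'] at g2
    have hApos : 0 < A := by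
      have e : A = exp c * (2 * t / (1 + t)) := by
        rw [hA]
        unfold f0
        have : exp (2 * c) * exp (-c) = exp c := by
          rw [← exp_add]
          congr 1
          ring
        rw [mul_assoc, this]
        field_simp
        ring
      rw [e]
      positivity
    have hsum : A * (2 - r - r⁻¹) = 0 := by
      have e : p + p' = -A := by linarith
      have e2 : 2 * A + (p + p') * (r + r⁻¹) = 0 := by linarith
      rw [e] at e2
      linarith
    have hfac : 2 - r - r⁻¹ < 0 := by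
      have hr0 : 0 < r := by linarith
      have e : 2 - r - r⁻¹ = -((r - 1) ^ 2 / r) := by
        field_simp
        ring
      rw [e]
      have : 0 < (r - 1) ^ 2 / r := by
        have : 0 < r - 1 := by linarith
        positivity
      linarith
    have := mul_neg_of_pos_of_neg hApos hfac
    linarith

end

end Pool.Agent.R204.ST
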